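import Mathlib

set_option autoImplicit false

namespace Pool.Agent.P.MP_8e531e_co.Q

open Finset

variable {V : Type} [Fintype V] [DecidableEq V]

/-- `w(v) = (d(v) + ω(v) + 1) / 2`, with `ω(v)` the largest size of a clique through `v`. -/
noncomputable def wt (G : SimpleGraph V) [DecidableRel G.Adj] (v : V) : ℝ :=
  ((G.degree v : ℝ) + ((sSup {n : ℕ | ∃ s : Finset V, G.IsNClique n s ∧ v ∈ s} : ℕ) : ℝ) + 1) / 2

/-- `γ_∞(G) ≤ g`: the average of `w` over every maximal clique is at most `g`. -/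
def GammaLe (G : SimpleGraph V) [DecidableRel G.Adj] (g : ℝ) : Prop :=
  ∀ X : Finset V, G.IsClique (X : Set V) →
    (∀ Y : Finset V, G.IsClique (Y : Set V) → X ⊆ Y → Y = X) →
    (∑ v ∈ X, wt G v) / (X.card : ℝ) ≤ g

/-- `x` is a fractional colouring: nonnegative weights on independent sets covering each vertex
at least once. -/
def IsFracCol (G : SimpleGraph V) (x : Finset V → ℝ) : Prop :=
  (∀ s, 0 ≤ x s) ∧ (∀ s : Finset V, ¬ G.IsIndepSet (s : Set V) → x s = 0) ∧
    ∀ v : V, 1 ≤ ∑ s ∈ univ.filter (fun s : Finset V => v ∈ s), x s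

/-- The fractional chromatic number: the least total weight of a fractional colouring. -/
noncomputable def chiF (G : SimpleGraph V) : ℝ :=
  sInf {t : ℝ | ∃ x : Finset V → ℝ, IsFracCol G x ∧ ∑ s, x s = t}

/-- The supremum of `χ_f(G)` over all finite nonempty graphs `G` with `γ_∞(G) ≤ g`. -/
noncomputable def maxChi (g : ℝ) : ℝ :=
  sSup {t : ℝ | ∃ (V : Type) (_ : Fintype V) (_ : DecidableEq V) (_ : Nonempty V)
    (G : SimpleGraph V) (_ : DecidableRel G.Adj), GammaLe G g ∧ chiF G = t}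

end Pool.Agent.P.MP_8e531e_co.Q
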