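import Pool.Agent.P.MP_8e531e_co.Q.Defs

/-! The upper bound: greedy fractional colouring and the hard-core model. -/

set_option autoImplicit false
set_option linter.unusedSectionVars false

namespace Pool.Agent.P.MP_8e531e_co.Q

open Finset

section
variable {V : Type} [Fintype V] [DecidableEq V]

/-- Total weight of the sets containing `v`. -/
def cov (x : Finset V → ℝ) (v : V) : ℝ := ∑ s ∈ univ.filter (fun s : Finset V => v ∈ s), x s

theorem cov_nonneg {x : Finset V → ℝ} (hx : ∀ s, 0 ≤ x s) (v : V) : 0 ≤ cov x v :=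
  sum_nonneg fun s _ => hx s

/-- Local occupancy on all subsets of `A`. -/
def LocOcc (G : SimpleGraph V) [DecidableRel G.Adj] (α β : ℝ) (A : Finset V) : Prop :=
  ∀ H ⊆ A, ∃ μ : Finset V → ℝ, (∀ s, 0 ≤ μ s) ∧
    (∀ s : Finset V, ¬ G.IsIndepSet (s : Set V) → μ s = 0) ∧ (∀ s, ¬ s ⊆ H → μ s = 0) ∧
    ∑ s, μ s = 1 ∧ ∀ v ∈ H, 1 ≤ α * cov μ v + β * ∑ u ∈ G.neighborFinset v, cov μ u

/-- Greedy fractional colouring with a demand vector. -/
theorem greedy (G : SimpleGraph V) [DecidableRel G.Adj] {α β : ℝ} (hα : 0 ≤ α) (hβ : 0 ≤ β)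
    {A : Finset V} (hloc : LocOcc G α β A) (n : ℕ) :
    ∀ (r : V → ℝ) (k : ℝ), (univ.filter (fun v => 0 < r v)).card ≤ n → (∀ v, 0 ≤ r v) →
      (∀ v, 0 < r v → v ∈ A) → 0 ≤ k →
      (∀ v, 0 < r v → α * r v + β * ∑ u ∈ G.neighborFinset v, r u ≤ k) →
      ∃ x : Finset V → ℝ, (∀ s, 0 ≤ x s) ∧
        (∀ s : Finset V, ¬ G.IsIndepSet (s : Set V) → x s = 0) ∧
        (∀ v, r v ≤ cov x v) ∧ ∑ s, x s ≤ k := by
  induction n with
  | zero =>
    intro r k hc h0 _ hk _
    refine ⟨fun _ => 0, fun _ => le_rfl, fun _ _ => rfl, fun v => ?_, by simpa using hk⟩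
    have : ¬ 0 < r v := fun h => by
      have : v ∈ univ.filter (fun v => 0 < r v) := by simpa using h
      rw [card_eq_zero.1 (Nat.le_zero.1 hc)] at this
      simp at this
    simpa [cov] using not_lt.1 this
  | succ n ih =>
    intro r k hc h0 hA hk hb
    set H := univ.filter (fun v => 0 < r v) with hH
    by_cases hle : H.card ≤ n
    · exact ih r k hle h0 hA hk hb
    have hmem : ∀ v, v ∈ H ↔ 0 < r v := fun v => by simp [hH]
    obtain ⟨v0, hv0⟩ : H.Nonempty := card_pos.1 (by omega)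
    obtain ⟨μ, m0, m1, m2, m3, m4⟩ := hloc H (fun v hv => hA v ((hmem v).1 hv))
    have p0 : ∀ u, 0 ≤ cov μ u := cov_nonneg m0
    have pH : ∀ u, u ∉ H → cov μ u = 0 := fun u hu =>
      sum_eq_zero fun s hs => m2 s fun hsub => hu (hsub (by simpa using hs))
    have hT : (univ.filter (fun u => 0 < cov μ u)).Nonempty := by
      by_contra hne
      have hz : ∀ u, cov μ u = 0 := fun u => by
        by_contra h
        exact hne ⟨u, by simpa using lt_of_le_of_ne (p0 u) (Ne.symm h)⟩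
      have := m4 v0 hv0
      simp [hz] at this
      linarith
    obtain ⟨u0, hu0, hmin⟩ := exists_min_image _ (fun u => r u / cov μ u) hT
    have pu0 : 0 < cov μ u0 := by simpa using hu0
    have hu0H : u0 ∈ H := by
      by_contra h
      exact pu0.ne' (pH u0 h)
    set τ := r u0 / cov μ u0 with hτ
    have τ0 : 0 ≤ τ := div_nonneg (h0 _) pu0.le
    have r0 : ∀ u, 0 ≤ r u - τ * cov μ u := fun u => by
      rcases (p0 u).eq_or_lt with h | h
      · rw [← h]; simpa using h0 u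
      · have := hmin u (by simpa using h)
        rw [le_div_iff₀ h] at this
        linarith
    have rle : ∀ u, 0 < r u - τ * cov μ u → 0 < r u := fun u h => by
      have := mul_nonneg τ0 (p0 u)
      linarith
    have key : ∀ v, 0 < r v → α * (r v - τ * cov μ v) +
        β * ∑ u ∈ G.neighborFinset v, (r u - τ * cov μ u) ≤ k - τ := fun v hv => by
      have h1 := hb v hv
      have h2 := mul_le_mul_of_nonneg_left (m4 v ((hmem v).2 hv)) τ0
      rw [sum_sub_distrib, ← mul_sum]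
      nlinarith
    have k0 : 0 ≤ k - τ := by
      refine le_trans ?_ (key v0 ((hmem v0).1 hv0))
      exact add_nonneg (mul_nonneg hα (r0 _)) (mul_nonneg hβ (sum_nonneg fun u _ => r0 u))
    have hcard : (univ.filter (fun v => 0 < r v - τ * cov μ v)).card ≤ n := by
      have hsub : univ.filter (fun v => 0 < r v - τ * cov μ v) ⊆ H.erase u0 := by
        intro v hv
        have hv' : 0 < r v - τ * cov μ v := by simpa using hv
        refine mem_erase.2 ⟨?_, (hmem v).2 (rle v hv')⟩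
        rintro rfl
        rw [hτ, div_mul_cancel₀ _ pu0.ne'] at hv'
        linarith
      have := card_le_card hsub
      rw [card_erase_of_mem hu0H] at this
      omega
    obtain ⟨x, x0, x1, x2, x3⟩ := ih (fun v => r v - τ * cov μ v) (k - τ) hcard r0
      (fun v hv => hA v (rle v hv)) k0 (fun v hv => key v (rle v hv))
    refine ⟨fun s => x s + τ * μ s, fun s => add_nonneg (x0 s) (mul_nonneg τ0 (m0 s)),
      fun s hs => by simp [x1 s hs, m1 s hs], fun v => ?_, ?_⟩
    · have h1 := x2 v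
      have : cov (fun s => x s + τ * μ s) v = cov x v + τ * cov μ v := by
        simp only [cov, sum_add_distrib, mul_sum]
      rw [this]
      linarith
    · rw [sum_add_distrib, ← mul_sum, m3]
      linarith

/-- Covering the set `A` with total weight `α + β D`. -/
theorem cover_set (G : SimpleGraph V) [DecidableRel G.Adj] {α β D : ℝ} (hα : 0 ≤ α) (hβ : 0 ≤ β)
    (hD : 0 ≤ D) {A : Finset V} (hloc : LocOcc G α β A) (hdeg : ∀ v ∈ A, (G.degree v : ℝ) ≤ D) :
    ∃ x : Finset V → ℝ, (∀ s, 0 ≤ x s) ∧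
      (∀ s : Finset V, ¬ G.IsIndepSet (s : Set V) → x s = 0) ∧
      (∀ v ∈ A, 1 ≤ cov x v) ∧ ∑ s, x s ≤ α + β * D := by
  have hA : ∀ v, (0 : ℝ) < (if v ∈ A then 1 else 0) → v ∈ A := fun v h => by
    by_contra hv
    simp [hv] at h
  obtain ⟨x, x0, x1, x2, x3⟩ := greedy G hα hβ hloc _ (fun v => if v ∈ A then 1 else 0)
    (α + β * D) le_rfl (fun v => by split_ifs <;> norm_num) hA (by positivity) (fun v hv => by
      have h1 : ∑ u ∈ G.neighborFinset v, (if u ∈ A then (1 : ℝ) else 0) ≤ D := by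
        refine le_trans (sum_le_sum (g := fun _ => (1 : ℝ)) fun u _ => by
          split_ifs <;> norm_num) ?_
        simpa using hdeg v (hA v hv)
      have := mul_le_mul_of_nonneg_left h1 hβ
      simp only [hA v hv, if_true]
      linarith)
  exact ⟨x, x0, x1, fun v hv => by simpa [hv] using x2 v, x3⟩

/-- A maximal independent subset gives local occupancy with `α = β = 1`. -/
theorem locOcc_one (G : SimpleGraph V) [DecidableRel G.Adj] (A : Finset V) : LocOcc G 1 1 A := by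
  classical
  intro H _
  obtain ⟨I, hI, hmax⟩ := exists_max_image
    (H.powerset.filter (fun s : Finset V => G.IsIndepSet (s : Set V))) card
    ⟨∅, by simp⟩
  obtain ⟨hIH, hIi⟩ := mem_filter.1 hI
  rw [mem_powerset] at hIH
  have hc : ∀ u, cov (fun s => if s = I then (1 : ℝ) else 0) u = if u ∈ I then 1 else 0 :=
    fun u => by simp [cov]
  refine ⟨fun s => if s = I then 1 else 0, fun s => by dsimp only; split_ifs <;> norm_num,
    fun s hs => if_neg (by rintro rfl; exact hs hIi),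
    fun s hs => if_neg (by rintro rfl; exact hs hIH), by simp, fun v hv => ?_⟩
  simp only [hc, one_mul]
  have hn : ∀ u, (0 : ℝ) ≤ if u ∈ I then 1 else 0 := fun u => by split_ifs <;> norm_num
  by_cases hvI : v ∈ I
  · have := sum_nonneg (s := G.neighborFinset v) fun u _ => hn u
    simp only [hvI, if_true]
    linarith
  · have : ∃ u ∈ I, G.Adj v u := by
      by_contra hno
      push Not at hno
      have h1 : insert v I ∈ H.powerset.filter (fun s : Finset V => G.IsIndepSet (s : Set V)) := by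
        refine mem_filter.2 ⟨mem_powerset.2 (insert_subset hv hIH), ?_⟩
        rw [coe_insert]
        exact Set.pairwise_insert.2 ⟨hIi, fun b hb _ => ⟨hno b hb, fun h => hno b hb h.symm⟩⟩
      have := hmax _ h1
      rw [card_insert_of_notMem hvI] at this
      omega
    obtain ⟨u, huI, hu⟩ := this
    have h2 := single_le_sum (s := G.neighborFinset v) (fun u _ => hn u)
      ((G.mem_neighborFinset v u).2 hu)
    simp only [huI, hvI, if_true, if_false] at h2 ⊢
    linarith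

end

section
variable {V : Type} [Fintype V] [DecidableEq V] (G : SimpleGraph V) [DecidableRel G.Adj]

/-- Independent subsets of `A`. -/
def Ind (A : Finset V) : Finset (Finset V) :=
  A.powerset.filter (fun s => ∀ a ∈ s, ∀ b ∈ s, ¬ G.Adj a b)

theorem mem_Ind {A s : Finset V} : s ∈ Ind G A ↔ s ⊆ A ∧ ∀ a ∈ s, ∀ b ∈ s, ¬ G.Adj a b := by
  simp [Ind]

theorem in_eq (l : ℝ) {F : Finset V} {u : V} (hu : u ∈ F) :
    ∑ I ∈ (Ind G F).filter (fun I => u ∈ I), l ^ I.card =
      l * ∑ I ∈ (Ind G F).filter (fun I => u ∉ I ∧ ∀ w ∈ I, ¬ G.Adj u w), l ^ I.card := by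
  rw [mul_sum]
  refine sum_bij' (fun I _ => I.erase u) (fun J _ => insert u J) ?_ ?_ ?_ ?_ ?_
  · intro I hI
    obtain ⟨h1, h2⟩ := mem_filter.1 hI
    obtain ⟨h3, h4⟩ := (mem_Ind G).1 h1
    refine mem_filter.2 ⟨(mem_Ind G).2 ⟨(erase_subset _ _).trans h3, fun a ha b hb =>
      h4 a (mem_of_mem_erase ha) b (mem_of_mem_erase hb)⟩, notMem_erase _ _, fun w hw =>
      h4 u h2 w (mem_of_mem_erase hw)⟩
  · intro J hJ
    obtain ⟨h1, h2, h5⟩ := mem_filter.1 hJ
    obtain ⟨h3, h4⟩ := (mem_Ind G).1 h1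
    refine mem_filter.2 ⟨(mem_Ind G).2 ⟨insert_subset hu h3, fun a ha b hb => ?_⟩,
      mem_insert_self _ _⟩
    rcases mem_insert.1 ha with ha' | ha' <;> rcases mem_insert.1 hb with hb' | hb'
    · rw [ha', hb']; exact G.irrefl
    · rw [ha']; exact h5 b hb'
    · rw [hb']; exact fun h => h5 a ha' h.symm
    · exact h4 a ha' b hb'
  · intro I hI
    exact insert_erase (mem_filter.1 hI).2
  · intro J hJ
    exact erase_insert (mem_filter.1 hJ).2.1
  · intro I hI
    rw [← pow_succ', card_erase_add_one (mem_filter.1 hI).2]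

theorem in_le {l : ℝ} (hl : 0 ≤ l) {F : Finset V} {u : V} (hu : u ∈ F) :
    ∑ I ∈ (Ind G F).filter (fun I => u ∈ I), l ^ I.card ≤ l * ∑ I ∈ Ind G F, l ^ I.card := by
  rw [in_eq G l hu]
  exact mul_le_mul_of_nonneg_left
    (sum_le_sum_of_subset_of_nonneg (filter_subset _ _) fun _ _ _ => by positivity) hl

theorem in_ge {l : ℝ} (hl : 0 ≤ l) {F : Finset V} {u : V} (hu : u ∈ F) :
    l * (1 - l * ((F.filter (fun w => G.Adj u w)).card : ℝ)) * ∑ I ∈ Ind G F, l ^ I.card ≤
      (1 + l) * ∑ I ∈ (Ind G F).filter (fun I => u ∈ I), l ^ I.card := by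
  have h1 : ∑ I ∈ Ind G F, l ^ I.card ≤ ∑ I ∈ (Ind G F).filter (fun I => u ∈ I), l ^ I.card +
      ∑ I ∈ (Ind G F).filter (fun I => u ∉ I ∧ ∀ w ∈ I, ¬ G.Adj u w), l ^ I.card +
      ∑ w ∈ F.filter (fun w => G.Adj u w), ∑ I ∈ (Ind G F).filter (fun I => w ∈ I),
        l ^ I.card := by
    simp only [sum_filter (s := Ind G F)]
    rw [sum_comm, ← sum_add_distrib, ← sum_add_distrib]
    refine sum_le_sum fun I hI => ?_
    have hp : 0 ≤ l ^ I.card := by positivity
    have hn : ∀ w, 0 ≤ if w ∈ I then l ^ I.card else 0 := fun w => by split_ifs <;> positivity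
    have hs := sum_nonneg (s := F.filter (fun w => G.Adj u w)) fun w _ => hn w
    by_cases h : u ∈ I
    · simp only [h, if_true, not_true, false_and, if_false]
      linarith
    · by_cases h2 : ∀ w ∈ I, ¬ G.Adj u w
      · rw [if_neg h, if_pos ⟨h, h2⟩]
        linarith
      · rw [if_neg h, if_neg (fun h3 => h2 h3.2)]
        push Not at h2
        obtain ⟨w, hw, hadj⟩ := h2
        have := single_le_sum (s := F.filter (fun w => G.Adj u w)) (fun w _ => hn w)
          (mem_filter.2 ⟨((mem_Ind G).1 hI).1 hw, hadj⟩)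
        simp only [hw, if_true] at this
        linarith
  have h2 : ∑ w ∈ F.filter (fun w => G.Adj u w), ∑ I ∈ (Ind G F).filter (fun I => w ∈ I),
      l ^ I.card ≤ ((F.filter (fun w => G.Adj u w)).card : ℝ) *
        (l * ∑ I ∈ Ind G F, l ^ I.card) := by
    rw [← nsmul_eq_mul]
    exact sum_le_card_nsmul _ _ _ fun w hw => in_le G hl (mem_filter.1 hw).1
  have h3 := in_eq G l hu
  have h4 := mul_le_mul_of_nonneg_left (h1.trans (add_le_add_right h2 _)) hl
  nlinarith

theorem sum_in (l : ℝ) (A F : Finset V) :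
    ∑ u ∈ A, ∑ I ∈ (Ind G F).filter (fun I => u ∈ I), l ^ I.card =
      ∑ I ∈ Ind G F, l ^ I.card * ((A.filter (fun u => u ∈ I)).card : ℝ) := by
  simp only [sum_filter (s := Ind G F)]
  rw [sum_comm]
  refine sum_congr rfl fun I _ => ?_
  rw [← sum_filter, sum_const, nsmul_eq_mul, mul_comm]

/-- The local inequality inside a neighbourhood with few edges. -/
theorem local_ineq {l a α β E : ℝ} (hl : 0 < l) (hl1 : l ≤ 1) (ha : 0 < a) (hβ : 4 ≤ β * a)
    (hα : Real.exp a ≤ l * (α - 1)) (hE : l ^ 2 * E ≤ a / 2) (F : Finset V)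
    (hF : ∑ u ∈ F, ((F.filter (fun w => G.Adj u w)).card : ℝ) ≤ E) :
    0 ≤ l * (α - 1) + ∑ K ∈ Ind G F, l ^ K.card * (β * K.card - 1) := by
  have hβ0 : 0 < β := by
    by_contra h
    nlinarith [mul_nonneg (neg_nonneg.2 (not_lt.1 h)) ha.le]
  set Z := ∑ K ∈ Ind G F, l ^ K.card with hZ
  set M := ∑ K ∈ Ind G F, l ^ K.card * (K.card : ℝ) with hM
  have e1 : ∑ K ∈ Ind G F, l ^ K.card * (β * K.card - 1) = β * M - Z := by
    rw [hM, hZ, mul_sum, ← sum_sub_distrib]
    exact sum_congr rfl fun K _ => by ring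
  rw [e1]
  have M0 : 0 ≤ M := sum_nonneg fun K _ => by positivity
  by_cases hc : Z ≤ Real.exp a
  · nlinarith [mul_nonneg hβ0.le M0]
  push Not at hc
  have Z0 : 0 < Z := (Real.exp_pos a).trans hc
  have hZle : Z ≤ Real.exp (l * F.card) := by
    have h1 : Z ≤ ∑ K ∈ F.powerset, l ^ K.card :=
      sum_le_sum_of_subset_of_nonneg (filter_subset _ _) fun _ _ _ => by positivity
    have h2 : ∑ K ∈ F.powerset, l ^ K.card = (1 + l) ^ F.card := by
      have := prod_one_add (s := F) (f := fun _ => l)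
      simp only [prod_const] at this
      exact this.symm
    have h3 : (1 + l) ^ F.card ≤ Real.exp l ^ F.card :=
      pow_le_pow_left₀ (by positivity) (by linarith [Real.add_one_le_exp l]) _
    rw [← Real.exp_nat_mul, mul_comm] at h3
    linarith
  have hn : a ≤ l * F.card := (Real.exp_lt_exp.1 (hc.trans_le hZle)).le
  have h1 : M = ∑ u ∈ F, ∑ I ∈ (Ind G F).filter (fun I => u ∈ I), l ^ I.card := by
    rw [sum_in]
    refine sum_congr rfl fun I hI => ?_
    rw [filter_mem_eq_inter, inter_eq_right.2 ((mem_Ind G).1 hI).1]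
  have h2 := sum_le_sum (s := F) fun u hu => in_ge G hl.le hu
  rw [← mul_sum, ← h1, ← sum_mul, ← mul_sum, sum_sub_distrib, ← mul_sum, sum_const,
    nsmul_eq_mul, mul_one] at h2
  have h3 : a / 2 ≤ l * ((F.card : ℝ) -
      l * ∑ u ∈ F, ((F.filter (fun w => G.Adj u w)).card : ℝ)) := by
    have := mul_le_mul_of_nonneg_left hF (sq_nonneg l)
    nlinarith
  have h4 : a / 2 * Z ≤ 2 * M := by
    have := mul_le_mul_of_nonneg_right h3 Z0.le
    nlinarith
  have h5 : Z ≤ β * M := by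
    have := mul_le_mul_of_nonneg_left h4 hβ0.le
    nlinarith
  have := (Real.exp_pos a).le
  linarith

/-- Splitting an independent set avoiding `v` along the neighbourhood of `v`. -/
theorem fibre (l β : ℝ) (H : Finset V) (v : V) :
    ∑ I ∈ (Ind G H).filter (fun I => v ∉ I),
        l ^ I.card * (β * (I.filter (fun u => G.Adj v u)).card - 1) =
      ∑ J ∈ (Ind G H).filter (fun I => v ∉ I ∧ ∀ w ∈ I, ¬ G.Adj v w),
        ∑ K ∈ Ind G (H.filter (fun u => G.Adj v u ∧ ∀ w ∈ J, ¬ G.Adj u w)),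
          l ^ J.card * (l ^ K.card * (β * K.card - 1)) := by
  rw [sum_sigma']
  refine sum_bij' (fun I _ => ⟨I.filter (fun u => ¬ G.Adj v u), I.filter (fun u => G.Adj v u)⟩)
    (fun x _ => x.1 ∪ x.2) ?_ ?_ ?_ ?_ ?_
  · intro I hI
    obtain ⟨h1, h2⟩ := mem_filter.1 hI
    obtain ⟨h3, h4⟩ := (mem_Ind G).1 h1
    refine mem_sigma.2 ⟨mem_filter.2 ⟨(mem_Ind G).2 ⟨(filter_subset _ _).trans h3,
      fun a ha b hb => h4 a (mem_filter.1 ha).1 b (mem_filter.1 hb).1⟩,
      fun h => h2 (mem_filter.1 h).1, fun w hw => (mem_filter.1 hw).2⟩, (mem_Ind G).2 ⟨?_,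
      fun a ha b hb => h4 a (mem_filter.1 ha).1 b (mem_filter.1 hb).1⟩⟩
    intro u hu
    exact mem_filter.2 ⟨h3 (mem_filter.1 hu).1, (mem_filter.1 hu).2, fun w hw =>
      h4 u (mem_filter.1 hu).1 w (mem_filter.1 hw).1⟩
  · rintro ⟨J, K⟩ hx
    obtain ⟨hJ, hK⟩ := mem_sigma.1 hx
    obtain ⟨h1, h2, h5⟩ := mem_filter.1 hJ
    obtain ⟨h3, h4⟩ := (mem_Ind G).1 h1
    obtain ⟨h6, h7⟩ := (mem_Ind G).1 hK
    refine mem_filter.2 ⟨(mem_Ind G).2 ⟨union_subset h3 (h6.trans (filter_subset _ _)),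
      fun a ha b hb => ?_⟩, fun h => ?_⟩
    · rcases mem_union.1 ha with ha | ha <;> rcases mem_union.1 hb with hb | hb
      · exact h4 a ha b hb
      · exact fun h => (mem_filter.1 (h6 hb)).2.2 a ha h.symm
      · exact (mem_filter.1 (h6 ha)).2.2 b hb
      · exact h7 a ha b hb
    · rcases mem_union.1 h with h | h
      · exact h2 h
      · exact G.irrefl (mem_filter.1 (h6 h)).2.1
  · intro I _
    rw [union_comm]
    exact filter_union_filter_not_eq _ _
  · rintro ⟨J, K⟩ hx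
    obtain ⟨hJ, hK⟩ := mem_sigma.1 hx
    obtain ⟨-, -, h5⟩ := mem_filter.1 hJ
    obtain ⟨h6, -⟩ := (mem_Ind G).1 hK
    have h8 : ∀ u ∈ K, G.Adj v u := fun u hu => (mem_filter.1 (h6 hu)).2.1
    have e1 : (J ∪ K).filter (fun u => ¬ G.Adj v u) = J := by
      ext u
      simp only [mem_filter, mem_union]
      exact ⟨fun h => h.1.resolve_right fun h' => h.2 (h8 u h'), fun h => ⟨Or.inl h, h5 u h⟩⟩
    have e2 : (J ∪ K).filter (fun u => G.Adj v u) = K := by
      ext u
      simp only [mem_filter, mem_union]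
      exact ⟨fun h => h.1.resolve_left fun h' => h5 u h' h.2, fun h => ⟨Or.inr h, h8 u h⟩⟩
    simp only [e1, e2]
  · intro I _
    rw [← mul_assoc, ← pow_add, add_comm (I.filter _).card, card_filter_add_card_filter_not]

/-- Local occupancy of the hard-core model at vertices whose neighbourhoods have few edges. -/
theorem locOcc_hard {l a α β E : ℝ} (hl : 0 < l) (hl1 : l ≤ 1) (ha : 0 < a) (hβ : 4 ≤ β * a)
    (hα : Real.exp a ≤ l * (α - 1)) (hE : l ^ 2 * E ≤ a / 2) (A : Finset V)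
    (hA : ∀ v ∈ A, ∑ u ∈ G.neighborFinset v,
      (((G.neighborFinset v).filter (fun w => G.Adj u w)).card : ℝ) ≤ E) :
    LocOcc G α β A := by
  intro H hH
  set Z := ∑ K ∈ Ind G H, l ^ K.card with hZ
  have Z0 : 0 < Z := sum_pos (fun _ _ => by positivity) ⟨∅, by simp [mem_Ind]⟩
  have hc : ∀ u, cov (fun s => if s ∈ Ind G H then l ^ s.card / Z else 0) u =
      (∑ I ∈ (Ind G H).filter (fun I => u ∈ I), l ^ I.card) / Z := fun u => by
    rw [cov, ← sum_filter, sum_div]
    exact sum_congr (by ext s; simp [and_comm]) fun _ _ => rfl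
  refine ⟨fun s => if s ∈ Ind G H then l ^ s.card / Z else 0,
    fun s => by dsimp only; split_ifs <;> positivity,
    fun s hs => if_neg fun h => hs fun a ha b hb _ => ((mem_Ind G).1 h).2 a ha b hb,
    fun s hs => if_neg fun h => hs ((mem_Ind G).1 h).1, ?_, fun v hv => ?_⟩
  · rw [← sum_filter, ← sum_div, div_eq_one_iff_eq Z0.ne']
    exact sum_congr (by ext s; simp) fun _ _ => rfl
  simp only [hc]
  rw [← sum_div, sum_in, ← mul_div_assoc, ← mul_div_assoc, ← add_div, le_div_iff₀ Z0, one_mul]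
  have e1 : ∀ I : Finset V, (G.neighborFinset v).filter (fun u => u ∈ I) =
      I.filter (fun u => G.Adj v u) := fun I => by ext u; simp [and_comm]
  simp only [e1]
  have s1 := sum_filter_add_sum_filter_not (Ind G H) (fun I => v ∈ I) (fun I => l ^ I.card)
  have s2 : ∑ I ∈ (Ind G H).filter (fun I => v ∉ I),
      l ^ I.card * ((I.filter (fun u => G.Adj v u)).card : ℝ) ≤
      ∑ I ∈ Ind G H, l ^ I.card * ((I.filter (fun u => G.Adj v u)).card : ℝ) :=
    sum_le_sum_of_subset_of_nonneg (filter_subset _ _) fun _ _ _ => by positivity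
  have hβ0 : 0 < β := by
    by_contra h
    nlinarith [mul_nonneg (neg_nonneg.2 (not_lt.1 h)) ha.le]
  have s3 : ∑ I ∈ (Ind G H).filter (fun I => v ∉ I),
      l ^ I.card * (β * (I.filter (fun u => G.Adj v u)).card - 1) =
      β * ∑ I ∈ (Ind G H).filter (fun I => v ∉ I),
        l ^ I.card * ((I.filter (fun u => G.Adj v u)).card : ℝ) -
      ∑ I ∈ (Ind G H).filter (fun I => v ∉ I), l ^ I.card := by
    rw [mul_sum, ← sum_sub_distrib]
    exact sum_congr rfl fun K _ => by ring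
  have s4 : 0 ≤ (α - 1) * ∑ I ∈ (Ind G H).filter (fun I => v ∈ I), l ^ I.card +
      ∑ I ∈ (Ind G H).filter (fun I => v ∉ I),
        l ^ I.card * (β * (I.filter (fun u => G.Adj v u)).card - 1) := by
    rw [fibre, in_eq G l hv, ← mul_assoc, mul_sum, ← sum_add_distrib]
    refine sum_nonneg fun J _ => ?_
    rw [← mul_sum, mul_comm _ (l ^ J.card), ← mul_add, mul_comm (α - 1)]
    refine mul_nonneg (by positivity) (local_ineq G hl hl1 ha hβ hα hE _ ?_)
    have hsub : H.filter (fun u => G.Adj v u ∧ ∀ w ∈ J, ¬ G.Adj u w) ⊆ G.neighborFinset v :=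
      fun u hu => (G.mem_neighborFinset v u).2 (mem_filter.1 hu).2.1
    refine le_trans ?_ (hA v (hH hv))
    refine le_trans (sum_le_sum fun u _ => ?_)
      (sum_le_sum_of_subset_of_nonneg hsub fun _ _ _ => by positivity)
    exact_mod_cast card_le_card (filter_subset_filter _ hsub)
  have s5 := mul_le_mul_of_nonneg_left s2 hβ0.le
  linarith

end

section
variable {V : Type} [Fintype V] [DecidableEq V] {G : SimpleGraph V} [DecidableRel G.Adj]

omit [DecidableEq V] [DecidableRel G.Adj] in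
theorem exists_maximal_clique (Y : Finset V) (hY : G.IsClique (Y : Set V)) :
    ∃ X : Finset V, Y ⊆ X ∧ G.IsClique (X : Set V) ∧
      ∀ Z : Finset V, G.IsClique (Z : Set V) → X ⊆ Z → Z = X := by
  classical
  obtain ⟨X, hX, hmax⟩ := exists_max_image
    (univ.filter (fun s : Finset V => Y ⊆ s ∧ G.IsClique (s : Set V))) card ⟨Y, by simpa using hY⟩
  obtain ⟨-, h1, h2⟩ := mem_filter.1 hX
  exact ⟨X, h1, h2, fun Z hZ hXZ =>
    (eq_of_subset_of_card_le hXZ (hmax Z (mem_filter.2 ⟨mem_univ _, h1.trans hXZ, hZ⟩))).symm⟩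

omit [DecidableEq V] in
theorem le_wt (v : V) : ((G.degree v : ℝ) + 1) / 2 ≤ wt G v := by
  unfold wt
  have : (0 : ℝ) ≤ ((sSup {n : ℕ | ∃ s : Finset V, G.IsNClique n s ∧ v ∈ s} : ℕ) : ℝ) :=
    Nat.cast_nonneg _
  linarith

/-- Closed neighbourhood. -/
def cl (G : SimpleGraph V) [DecidableRel G.Adj] (v : V) : Finset V := insert v (G.neighborFinset v)

theorem card_cl (v : V) : ((cl G v).card : ℝ) = G.degree v + 1 := by
  rw [cl, card_insert_of_notMem (by simp), G.card_neighborFinset_eq_degree]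
  push_cast; ring

theorem clique_sub {X : Finset V} (hX : G.IsClique (X : Set V)) {u : V} (hu : u ∈ X) :
    X ⊆ cl G u := fun w hw => by
  by_cases h : w = u
  · rw [h]; exact mem_insert_self _ _
  · exact mem_insert_of_mem ((G.mem_neighborFinset u w).2 (hX hu hw (Ne.symm h)))

/-- What `γ_∞ ≤ g` says about a maximal clique. -/
theorem max_clique_facts {g : ℝ} (hg : 0 < g) (hγ : GammaLe G g) {X : Finset V}
    (hX : G.IsClique (X : Set V)) (hm : ∀ Z : Finset V, G.IsClique (Z : Set V) → X ⊆ Z → Z = X)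
    {v : V} (hv : v ∈ X) :
    (X.card : ℝ) ≤ 2 * g ∧ ((cl G v).card : ℝ) ≤ 2 * g * X.card ∧
      (X.card : ℝ) ≤ 2 * (X.filter (fun x => ((cl G x).card : ℝ) ≤ 4 * g)).card := by
  have hc : (0 : ℝ) < X.card := by exact_mod_cast card_pos.2 ⟨v, hv⟩
  have h0 := hγ X hX hm
  rw [div_le_iff₀ hc] at h0
  have h1 : ∑ u ∈ X, ((cl G u).card : ℝ) ≤ 2 * g * X.card := by
    have : ∑ u ∈ X, ((cl G u).card : ℝ) ≤ ∑ u ∈ X, 2 * wt G u := sum_le_sum fun u _ => by
      rw [card_cl]; linarith [le_wt (G := G) u]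
    rw [← mul_sum] at this
    linarith
  refine ⟨?_, ?_, ?_⟩
  · have : X.card • (X.card : ℝ) ≤ ∑ u ∈ X, ((cl G u).card : ℝ) :=
      card_nsmul_le_sum _ _ _ fun u hu => by exact_mod_cast card_le_card (clique_sub hX hu)
    rw [nsmul_eq_mul] at this
    nlinarith
  · exact (single_le_sum (f := fun u => ((cl G u).card : ℝ)) (fun u _ => by positivity) hv).trans h1
  · have h2 : (X.filter (fun x => ¬ ((cl G x).card : ℝ) ≤ 4 * g)).card • (4 * g) ≤
        ∑ u ∈ X.filter (fun x => ¬ ((cl G x).card : ℝ) ≤ 4 * g), ((cl G u).card : ℝ) :=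
      card_nsmul_le_sum _ _ _ fun u hu => (not_le.1 (mem_filter.1 hu).2).le
    have h3 : ∑ u ∈ X.filter (fun x => ¬ ((cl G x).card : ℝ) ≤ 4 * g), ((cl G u).card : ℝ) ≤
        ∑ u ∈ X, ((cl G u).card : ℝ) :=
      sum_le_sum_of_subset_of_nonneg (filter_subset _ _) fun _ _ _ => by positivity
    have h4 : ((X.filter (fun x => ((cl G x).card : ℝ) ≤ 4 * g)).card : ℝ) +
        (X.filter (fun x => ¬ ((cl G x).card : ℝ) ≤ 4 * g)).card = X.card := by
      exact_mod_cast card_filter_add_card_filter_not _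
    rw [nsmul_eq_mul] at h2
    nlinarith

theorem cl_le {g : ℝ} (hg : 0 < g) (hγ : GammaLe G g) (v : V) :
    ((cl G v).card : ℝ) ≤ 4 * g ^ 2 := by
  obtain ⟨X, h1, h2, h3⟩ := exists_maximal_clique (G := G) {v} (by simp)
  obtain ⟨a1, a2, -⟩ := max_clique_facts hg hγ h2 h3 (h1 (mem_singleton_self v))
  nlinarith

/-- The neighbourhood of a vertex of degree at least `h` spans few edges. -/
theorem edges_le {g h : ℝ} (hg : 0 < g) (hγ : GammaLe G g) {v : V} (hv : h ≤ G.degree v) :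
    (∑ u ∈ G.neighborFinset v, (((G.neighborFinset v).filter (fun w => G.Adj u w)).card : ℝ)) * h
      ≤ 256 * g ^ 5 := by
  set Lt := (cl G v).filter (fun x => ((cl G x).card : ℝ) ≤ 4 * g) with hLt
  have hind : ∀ (x a b : V), (0 : ℝ) ≤ if a ∈ cl G x ∧ b ∈ cl G x then 1 else 0 :=
    fun x a b => by split_ifs <;> norm_num
  have h1 : ∀ a ∈ G.neighborFinset v, ∀ b ∈ (G.neighborFinset v).filter (fun w => G.Adj a w),
      h ≤ 4 * g * ∑ x ∈ Lt, (if a ∈ cl G x ∧ b ∈ cl G x then (1 : ℝ) else 0) := by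
    intro a ha b hb
    obtain ⟨hb1, hab⟩ := mem_filter.1 hb
    rw [G.mem_neighborFinset] at ha hb1
    obtain ⟨X, x1, x2, x3⟩ := exists_maximal_clique (G := G) {v, a, b}
      (SimpleGraph.is3Clique_triple_iff.2 ⟨ha, hb1, hab⟩).isClique
    obtain ⟨-, a2, a3⟩ := max_clique_facts hg hγ x2 x3 (x1 (show v ∈ _ by simp))
    have hsub : X.filter (fun x => ((cl G x).card : ℝ) ≤ 4 * g) ⊆
        Lt.filter (fun x => a ∈ cl G x ∧ b ∈ cl G x) := fun x hx => by
      obtain ⟨y1, y2⟩ := mem_filter.1 hx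
      exact mem_filter.2 ⟨mem_filter.2 ⟨clique_sub x2 (x1 (by simp)) y1, y2⟩,
        clique_sub x2 y1 (x1 (by simp)), clique_sub x2 y1 (x1 (by simp))⟩
    have hcard : ((X.filter (fun x => ((cl G x).card : ℝ) ≤ 4 * g)).card : ℝ) ≤
        (Lt.filter (fun x => a ∈ cl G x ∧ b ∈ cl G x)).card := by exact_mod_cast card_le_card hsub
    rw [sum_boole]
    rw [card_cl] at a2
    nlinarith
  have h2 : ∀ x ∈ Lt, ∑ a ∈ G.neighborFinset v,
      ∑ b ∈ (G.neighborFinset v).filter (fun w => G.Adj a w),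
        (if a ∈ cl G x ∧ b ∈ cl G x then (1 : ℝ) else 0) ≤ 16 * g ^ 2 := by
    intro x hx
    have a1 : ∑ a ∈ G.neighborFinset v, ∑ b ∈ (G.neighborFinset v).filter (fun w => G.Adj a w),
        (if a ∈ cl G x ∧ b ∈ cl G x then (1 : ℝ) else 0) ≤
        ∑ a, ∑ b, (if a ∈ cl G x ∧ b ∈ cl G x then (1 : ℝ) else 0) :=
      (sum_le_sum fun a _ => sum_le_sum_of_subset_of_nonneg (subset_univ _)
        fun b _ _ => hind x a b).trans (sum_le_sum_of_subset_of_nonneg (subset_univ _)
          fun a _ _ => sum_nonneg fun b _ => hind x a b)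
    have a2 : ∑ a, ∑ b, (if a ∈ cl G x ∧ b ∈ cl G x then (1 : ℝ) else 0) =
        ((cl G x).card : ℝ) * (cl G x).card := by
      simp [ite_and]
    have a3 := (mem_filter.1 hx).2
    have a4 : (0 : ℝ) ≤ (cl G x).card := by positivity
    nlinarith
  have h3 : (Lt.card : ℝ) ≤ 4 * g ^ 2 :=
    le_trans (by exact_mod_cast card_filter_le _ _) (cl_le hg hγ v)
  have h4 := sum_le_card_nsmul _ _ _ h2
  rw [nsmul_eq_mul, sum_comm] at h4
  simp only [sum_comm (s := Lt)] at h4
  have h5 := sum_le_sum fun a ha => card_nsmul_le_sum _ _ _ (h1 a ha)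
  simp only [nsmul_eq_mul, ← mul_sum, ← sum_mul] at h5
  have h6 : (Lt.card : ℝ) * (16 * g ^ 2) ≤ 4 * g ^ 2 * (16 * g ^ 2) :=
    mul_le_mul_of_nonneg_right h3 (by positivity)
  have h7 := mul_le_mul_of_nonneg_left (h4.trans h6) (show 0 ≤ 4 * g by positivity)
  nlinarith

/-- Upper bound, in terms of `s = g ^ (1/4)`. -/
theorem upper_aux {s : ℝ} (hs : 1 < s) (hlog : 256 * Real.log s ≤ s)
    (hγ : GammaLe G (s ^ 4)) :
    ∃ x, IsFracCol G x ∧ ∑ t, x t ≤ 17 * (s ^ 8 / Real.log s) := by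
  have s0 : 0 < s := by linarith
  have a0 : 0 < Real.log s := Real.log_pos hs
  set a := Real.log s with ha
  have g0 : 0 < s ^ 4 := by positivity
  have p1 : ∀ n : ℕ, 1 ≤ s ^ n := fun n => one_le_pow₀ hs.le
  set h := s ^ 8 / (4 * a) with hh
  have h0 : 0 < h := by positivity
  have h1 : 64 ≤ h := by
    rw [hh, le_div_iff₀ (by positivity)]
    have : s ^ 8 = s ^ 7 * s := by ring
    nlinarith [p1 7]
  obtain ⟨x, x0, x1, x2, x3⟩ := cover_set G (D := h) zero_le_one zero_le_one h0.le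
    (locOcc_one G (univ.filter (fun v => ¬ h ≤ G.degree v)))
    (fun v hv => (not_le.1 (mem_filter.1 hv).2).le)
  have hocc : LocOcc G (1 + h) (4 / a) (univ.filter (fun v => h ≤ G.degree v)) := by
    refine locOcc_hard G (l := 1 / (64 * s ^ 6)) (a := a) (E := 256 * (s ^ 4) ^ 5 / h)
      (by positivity) ?_ a0 (by rw [div_mul_cancel₀ _ a0.ne']) ?_ ?_ _ fun v hv => ?_
    · rw [div_le_one (by positivity)]; linarith [p1 6]
    · rw [ha, Real.exp_log s0, add_sub_cancel_left, hh, div_mul_div_comm,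
        le_div_iff₀ (by positivity)]
      have := mul_le_mul_of_nonneg_left hlog (show 0 ≤ s ^ 7 by positivity)
      nlinarith
    · have : (1 / (64 * s ^ 6)) ^ 2 * (256 * (s ^ 4) ^ 5 / h) = a / 4 := by
        rw [hh]; field_simp; ring
      linarith
    · rw [le_div_iff₀ h0]
      exact edges_le g0 hγ (mem_filter.1 hv).2
  obtain ⟨y, y0, y1, y2, y3⟩ := cover_set G (D := 4 * (s ^ 4) ^ 2) (by positivity) (by positivity)
    (by positivity) hocc (fun v _ => by have := cl_le g0 hγ v; rw [card_cl] at this; linarith)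
  refine ⟨fun t => x t + y t, ⟨fun t => add_nonneg (x0 t) (y0 t),
    fun t ht => by simp [x1 t ht, y1 t ht], fun v => ?_⟩, ?_⟩
  · rw [sum_add_distrib]
    have b1 := cov_nonneg x0 v
    have b2 := cov_nonneg y0 v
    change 1 ≤ cov x v + cov y v
    by_cases hv : h ≤ G.degree v
    · linarith [y2 v (by simpa using hv)]
    · linarith [x2 v (by simpa using hv)]
  · rw [sum_add_distrib]
    have e1 : 4 / a * (4 * (s ^ 4) ^ 2) = 64 * h := by rw [hh]; field_simp; ring
    have e2 : s ^ 8 / a = 4 * h := by rw [hh]; field_simp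
    rw [e2]
    linarith

/-- `γ_∞ ≤ g` forces `χ_f ≤ 68 g² / log g` for large `g`. -/
theorem upper : ∃ g0 : ℝ, ∀ g ≥ g0, ∀ (V : Type) [Fintype V] [DecidableEq V]
    (G : SimpleGraph V) [DecidableRel G.Adj], GammaLe G g →
      ∃ x, IsFracCol G x ∧ ∑ t, x t ≤ 68 * (g ^ 2 / Real.log g) := by
  have h1 := (Real.isLittleO_log_id_atTop.bound (show (0 : ℝ) < 1 / 256 by norm_num))
  obtain ⟨s0, hs0⟩ := Filter.eventually_atTop.1 h1
  refine ⟨(max s0 2) ^ 4, fun g hg V _ _ G _ hγ => ?_⟩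
  have m2 : 2 ≤ max s0 2 := le_max_right _ _
  have g0 : 0 < g := lt_of_lt_of_le (by positivity) hg
  obtain ⟨s, s1, rfl⟩ : ∃ s : ℝ, 0 ≤ s ∧ g = s ^ 4 :=
    ⟨√(√g), Real.sqrt_nonneg _, by
      rw [show (4 : ℕ) = 2 * 2 from rfl, pow_mul, Real.sq_sqrt (Real.sqrt_nonneg _),
        Real.sq_sqrt g0.le]⟩
  have s2 : max s0 2 ≤ s := le_of_pow_le_pow_left₀ (by norm_num) s1 hg
  have s3 := hs0 s ((le_max_left _ _).trans s2)
  simp only [id, Real.norm_eq_abs, abs_of_nonneg s1] at s3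
  obtain ⟨x, x1, x2⟩ := upper_aux (G := G) (s := s) (by linarith)
    (by linarith [le_abs_self (Real.log s)]) hγ
  refine ⟨x, x1, x2.trans (le_of_eq ?_)⟩
  have a0 : 0 < Real.log s := Real.log_pos (by linarith)
  rw [Real.log_pow]
  field_simp
  push_cast
  ring

end

end Pool.Agent.P.MP_8e531e_co.Q
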