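import Pool.Agent.P.MP_8e531e_co.Main
import Pool.Agent.P.MP_8e531e_co.Q.Up

/-! The lower bound: random sparse bipartitions of the lines of a cube, with filler cliques. -/

set_option autoImplicit false
set_option linter.unusedSectionVars false

namespace Pool.Agent.P.MP_8e531e_co.Q

open Finset

section
theorem u_step {ρ : ℝ} (h0 : 0 ≤ ρ) (h1 : 2 * ρ ≤ 1) (s : ℕ) :
    0 ≤ 2 * (1 - ρ) ^ s - (1 - 2 * ρ) ^ s ∧ 2 * (1 - ρ) ^ (s + 1) - (1 - 2 * ρ) ^ (s + 1) ≤
      (2 * (1 - ρ) ^ s - (1 - 2 * ρ) ^ s) * (1 - ρ * (1 - (1 - ρ) ^ s)) := by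
  have a0 : 0 ≤ (1 - ρ) ^ s := pow_nonneg (by linarith) s
  have a1 : (1 - ρ) ^ s ≤ 1 := pow_le_one₀ (by linarith) (by linarith)
  have b1 : (1 - 2 * ρ) ^ s ≤ ((1 - ρ) ^ s) ^ 2 := by
    rw [← pow_mul, mul_comm s, pow_mul]
    exact pow_le_pow_left₀ (by linarith) (by nlinarith) s
  rw [pow_succ, pow_succ]
  set a := (1 - ρ) ^ s
  set b := (1 - 2 * ρ) ^ s
  have b2 : b ≤ a := by nlinarith
  have b3 : b ≤ a * (2 * a - b) := by nlinarith
  exact ⟨by linarith, by nlinarith [mul_le_mul_of_nonneg_left b3 h0]⟩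

theorem u_le {ρ : ℝ} (h0 : 0 ≤ ρ) (h1 : 2 * ρ ≤ 1) (t : ℕ) (ht : ρ * t ≤ 1) (s : ℕ) :
    2 * (1 - ρ) ^ s - (1 - 2 * ρ) ^ s ≤ Real.exp (-(ρ * (ρ * t / 2)) * ((s : ℝ) - t)) := by
  have t0 : 0 ≤ ρ * t := by positivity
  have hθ : (1 - ρ) ^ t ≤ 1 - ρ * t / 2 := by
    have a0 : 0 ≤ (1 - ρ) ^ t := pow_nonneg (by linarith) t
    have a1 := one_add_mul_le_pow (show (-2 : ℝ) ≤ ρ by linarith) t
    have a2 : (1 - ρ) ^ t * (1 + ρ) ^ t ≤ 1 := by
      rw [← mul_pow]; exact pow_le_one₀ (by nlinarith) (by nlinarith)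
    have a3 := mul_le_mul_of_nonneg_left a1 a0
    by_contra h
    push Not at h
    nlinarith
  have hone : ∀ s : ℕ, 2 * (1 - ρ) ^ s - (1 - 2 * ρ) ^ s ≤ 1 := fun s => by
    induction s with
    | zero => norm_num
    | succ s ih =>
      obtain ⟨u0, u1⟩ := u_step h0 h1 s
      have a1 : (1 - ρ) ^ s ≤ 1 := pow_le_one₀ (by linarith) (by linarith)
      nlinarith [mul_nonneg u0 (mul_nonneg h0 (sub_nonneg.2 a1))]
  rcases le_total s t with hs | hs
  · refine (hone s).trans (Real.one_le_exp ?_)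
    have : (s : ℝ) ≤ t := by exact_mod_cast hs
    nlinarith [mul_nonneg (mul_nonneg h0 t0) (sub_nonneg.2 this)]
  · induction s, hs using Nat.le_induction with
    | base => simpa using hone t
    | succ s hs ih =>
      obtain ⟨u0, u1⟩ := u_step h0 h1 s
      have a1 : (1 - ρ) ^ s ≤ (1 - ρ) ^ t := pow_le_pow_of_le_one (by linarith) (by linarith) hs
      have a2 : 1 - ρ * (1 - (1 - ρ) ^ s) ≤ Real.exp (-(ρ * (ρ * t / 2))) := by
        have := Real.add_one_le_exp (-(ρ * (ρ * t / 2)))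
        nlinarith [mul_le_mul_of_nonneg_left (a1.trans hθ) h0]
      refine u1.trans ((mul_le_mul_of_nonneg_left a2 u0).trans
        ((mul_le_mul_of_nonneg_right ih (Real.exp_pos _).le).trans (le_of_eq ?_)))
      rw [← Real.exp_add]
      congr 1
      push_cast
      ring

section
variable {X L P : Type} [Fintype X] [DecidableEq X] [Fintype L] [DecidableEq L]
  [Fintype P] [DecidableEq P] {r : ℕ}

theorem avg_prod (A : Finset X) (ψ : Fin (r + 2) → ℝ) :
    ∑ f : X → Fin (r + 2), ∏ x ∈ A, ψ (f x) =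
      ((r : ℝ) + 2) ^ Fintype.card X * ((∑ k, ψ k) / (r + 2)) ^ A.card := by
  have h1 : ∀ f : X → Fin (r + 2), ∏ x ∈ A, ψ (f x) = ∏ x, if x ∈ A then ψ (f x) else 1 :=
    fun f => by rw [← prod_filter]; congr 1; ext x; simp
  simp only [h1]
  have h2 := prod_univ_sum (fun _ : X => (univ : Finset (Fin (r + 2))))
    (fun x k => if x ∈ A then ψ k else 1)
  rw [Fintype.piFinset_univ] at h2
  rw [← h2]
  have h3 : ∀ x : X, (∑ k : Fin (r + 2), if x ∈ A then ψ k else 1) =
      ((r : ℝ) + 2) * if x ∈ A then (∑ k, ψ k) / (r + 2) else 1 := fun x => by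
    split_ifs
    · field_simp
    · simp
  simp only [h3]
  rw [prod_mul_distrib, prod_const, card_univ, ← prod_filter, prod_const]
  congr 2
  congr 1
  ext x; simp

theorem sum_avoid (Z : Finset (Fin (r + 2))) :
    (∑ k : Fin (r + 2), if k ∈ Z then (0 : ℝ) else 1) / (r + 2) = 1 - Z.card * (1 / (r + 2)) := by
  have : ∀ k : Fin (r + 2), (if k ∈ Z then (0 : ℝ) else 1) = 1 - if k ∈ Z then 1 else 0 :=
    fun k => by split_ifs <;> simp
  simp only [this]
  rw [sum_sub_distrib]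
  simp
  field_simp

/-- Indicator that no point of `A` labelled `0` meets a point of `A` labelled `1`. -/
noncomputable def good (A : Finset X) (f : X → Fin (r + 2)) : ℝ :=
  if ∃ x ∈ A, ∃ y ∈ A, f x = 0 ∧ f y = 1 then 0 else 1

omit [Fintype X] [DecidableEq X] in
theorem good_nonneg (A : Finset X) (f : X → Fin (r + 2)) : 0 ≤ good A f := by
  unfold good; split_ifs <;> norm_num

theorem line_count (A : Finset X) :
    ∑ f : X → Fin (r + 2), good A f = ((r : ℝ) + 2) ^ Fintype.card X *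
      (2 * (1 - 1 / ((r : ℝ) + 2)) ^ A.card - (1 - 2 * (1 / ((r : ℝ) + 2))) ^ A.card) := by
  have h1 : ∀ (Z : Finset (Fin (r + 2))) (f : X → Fin (r + 2)),
      ∏ x ∈ A, (if f x ∈ Z then (0 : ℝ) else 1) = if ∃ x ∈ A, f x ∈ Z then 0 else 1 := by
    intro Z f
    split_ifs with h
    · obtain ⟨x, hx, h⟩ := h
      exact prod_eq_zero hx (if_pos h)
    · exact prod_eq_one fun x hx => if_neg fun h' => h ⟨x, hx, h'⟩
  have h2 : ∀ f : X → Fin (r + 2), good A f =
      ∏ x ∈ A, (if f x ∈ ({0} : Finset (Fin (r + 2))) then (0 : ℝ) else 1) +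
      ∏ x ∈ A, (if f x ∈ ({1} : Finset (Fin (r + 2))) then (0 : ℝ) else 1) -
      ∏ x ∈ A, (if f x ∈ ({0, 1} : Finset (Fin (r + 2))) then (0 : ℝ) else 1) := by
    intro f
    rw [h1, h1, h1, good]
    have e1 : (∃ x ∈ A, ∃ y ∈ A, f x = 0 ∧ f y = 1) ↔ (∃ x ∈ A, f x = 0) ∧ ∃ x ∈ A, f x = 1 :=
      ⟨fun ⟨x, hx, y, hy, a, b⟩ => ⟨⟨x, hx, a⟩, y, hy, b⟩,
        fun ⟨⟨x, hx, a⟩, y, hy, b⟩ => ⟨x, hx, y, hy, a, b⟩⟩
    have e2 : (∃ x ∈ A, f x = 0 ∨ f x = 1) ↔ (∃ x ∈ A, f x = 0) ∨ ∃ x ∈ A, f x = 1 := by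
      simp only [and_or_left, exists_or]
    simp only [mem_insert, mem_singleton, e1, e2]
    by_cases a : ∃ x ∈ A, f x = 0 <;> by_cases b : ∃ x ∈ A, f x = 1 <;> simp [a, b]
  simp only [h2]
  rw [sum_sub_distrib, sum_add_distrib,
    avg_prod A (fun k => if k ∈ ({0} : Finset (Fin (r + 2))) then (0 : ℝ) else 1),
    avg_prod A (fun k => if k ∈ ({1} : Finset (Fin (r + 2))) then (0 : ℝ) else 1),
    avg_prod A (fun k => if k ∈ ({0, 1} : Finset (Fin (r + 2))) then (0 : ℝ) else 1),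
    sum_avoid, sum_avoid, sum_avoid, card_singleton, card_singleton,
    card_pair (by simp)]
  push_cast
  ring

omit [DecidableEq X] in
theorem sum_pi (F : L → (X → Fin (r + 2)) → ℝ) [DecidableEq X] :
    ∑ c : L → X → Fin (r + 2), ∏ l, F l (c l) = ∏ l, ∑ f, F l f := by
  rw [prod_univ_sum, Fintype.piFinset_univ]

theorem sum_good (A : L → Finset X) (t : ℕ) (ht : t ≤ r + 2) :
    ∑ c : L → X → Fin (r + 2), ∏ l, good (A l) (c l) ≤
      (((r : ℝ) + 2) ^ Fintype.card X) ^ Fintype.card L *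
        Real.exp (-(1 / ((r : ℝ) + 2) * (1 / ((r : ℝ) + 2) * t / 2)) *
          (∑ l, ((A l).card : ℝ) - Fintype.card L * t)) := by
  have r0 : (0 : ℝ) ≤ r := Nat.cast_nonneg r
  have h1 : 2 * (1 / ((r : ℝ) + 2)) ≤ 1 := by
    rw [mul_one_div, div_le_one (by positivity)]; linarith
  have h2 : 1 / ((r : ℝ) + 2) * t ≤ 1 := by
    rw [one_div_mul_eq_div, div_le_one (by positivity)]; exact_mod_cast ht
  rw [sum_pi (fun l f => good (A l) f)]
  refine (prod_le_prod (fun l _ => sum_nonneg fun f _ => good_nonneg _ _) fun l _ =>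
    (line_count (A l)).le.trans (mul_le_mul_of_nonneg_left
      (u_le (by positivity) h1 t h2 _) (by positivity))).trans (le_of_eq ?_)
  rw [prod_mul_distrib, prod_const, card_univ, ← Real.exp_sum, ← mul_sum, sum_sub_distrib]
  simp

/-- Number of labelled incidences in the family `Z`. -/
def cnt (Z : L → Finset X) (c : L → X → Fin (r + 2)) : ℕ :=
  ∑ l, ((Z l).filter (fun x => c l x = 0 ∨ c l x = 1)).card

theorem sum_cnt (Z : L → Finset X) (t : ℕ) (hZ : ∑ l, (Z l).card = (r + 2) * t) :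
    ∑ c : L → X → Fin (r + 2), (2 : ℝ) ^ cnt Z c ≤
      (((r : ℝ) + 2) ^ Fintype.card X) ^ Fintype.card L * 8 ^ t := by
  have r0 : (0 : ℝ) ≤ r := Nat.cast_nonneg r
  have h1 : ∀ c : L → X → Fin (r + 2), (2 : ℝ) ^ cnt Z c =
      ∏ l, ∏ x ∈ Z l, if c l x = 0 ∨ c l x = 1 then (2 : ℝ) else 1 := fun c => by
    rw [cnt, ← prod_pow_eq_pow_sum]
    exact prod_congr rfl fun l _ => by rw [← prod_filter, prod_const]
  simp only [h1]
  rw [sum_pi (fun l f => ∏ x ∈ Z l, if f x = 0 ∨ f x = 1 then (2 : ℝ) else 1)]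
  simp only [avg_prod _ (fun k : Fin (r + 2) => if k = 0 ∨ k = 1 then (2 : ℝ) else 1)]
  rw [prod_mul_distrib, prod_const, card_univ, prod_pow_eq_pow_sum, hZ, pow_mul]
  refine mul_le_mul_of_nonneg_left (pow_le_pow_left₀ (by positivity) ?_ t) (by positivity)
  have h2 : (∑ k : Fin (r + 2), if k = 0 ∨ k = 1 then (2 : ℝ) else 1) / (r + 2) =
      2 / (r + 2) + 1 := by
    have e : ∀ k : Fin (r + 2), (if k = 0 ∨ k = 1 then (2 : ℝ) else 1) =
        2 - if k ∈ ({0, 1} : Finset (Fin (r + 2))) then 0 else 1 := fun k => by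
      simp only [mem_insert, mem_singleton]; split_ifs <;> norm_num
    simp only [e]
    rw [sum_sub_distrib, sub_div, sum_avoid, card_pair (by simp)]
    simp
    field_simp
    ring
  rw [h2]
  refine (pow_le_pow_left₀ (by positivity) (Real.add_one_le_exp _) _).trans ?_
  rw [← Real.exp_nat_mul]
  have h3 : ((r + 2 : ℕ) : ℝ) * (2 / (r + 2)) = 1 + 1 := by push_cast; field_simp; ring
  rw [h3, Real.exp_add]
  nlinarith [Real.exp_one_lt_d9, Real.exp_pos 1]

/-- A labelling with no conflict-free `K`-set and few overloaded points. -/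
theorem exists_label (pt : L → X → P) (t K : ℕ) (ht : t ≤ r + 2)
    (hX : Fintype.card X = (r + 2) * t)
    (hJ : ∀ p, ∑ l, (univ.filter (fun x => pt l x = p)).card = (r + 2) * t)
    (hK : (r + 2) * K = 2 * Fintype.card L) (hP : 0 < Fintype.card P)
    (h1 : ((Fintype.card P).choose K : ℝ) * Real.exp (-(t ^ 2 * K / (4 * (r + 2)))) ≤ 1 / 2)
    (T : ℕ) (h2 : 4 * ((r + 2) * t + 1) * 8 ^ t < 2 ^ T) :
    ∃ c : L → X → Fin (r + 2), (∀ S : Finset P, S.card = K →
      ∃ l x y, pt l x ∈ S ∧ pt l y ∈ S ∧ c l x = 0 ∧ c l y = 1) ∧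
      2 * (univ.filter (fun p => (∃ l x, pt l x = p ∧
        T < (univ.filter (fun x => c l x = 0 ∨ c l x = 1)).card) ∨
        T < cnt (fun l => univ.filter (fun x => pt l x = p)) c)).card ≤ Fintype.card P := by
  have r0 : (0 : ℝ) ≤ r := Nat.cast_nonneg r
  set Ω : ℝ := (((r : ℝ) + 2) ^ Fintype.card X) ^ Fintype.card L with hΩ
  have Ω0 : 0 < Ω := by positivity
  set N : ℝ := (Fintype.card P : ℝ) with hN
  have N0 : 0 < N := by rw [hN]; exact_mod_cast hP
  set J : ℝ := (r + 2) * t with hJ'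
  have hsum : ∀ S : Finset P, ∑ l, (univ.filter (fun x => pt l x ∈ S)).card =
      S.card * ((r + 2) * t) := fun S => by
    rw [← smul_eq_mul, ← sum_const, ← sum_congr rfl fun p _ => hJ p, sum_comm]
    refine sum_congr rfl fun l _ => ?_
    rw [card_eq_sum_card_fiberwise (s := univ.filter (fun x => pt l x ∈ S)) (f := pt l) (t := S)
      (fun x hx => (mem_filter.1 (mem_coe.1 hx)).2)]
    refine sum_congr rfl fun p hp => ?_
    congr 1
    ext x
    simp only [mem_filter, mem_univ, true_and]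
    exact ⟨fun h => h.2, fun h => ⟨h ▸ hp, h⟩⟩
  let W1 : (L → X → Fin (r + 2)) → ℝ := fun c => ∑ S ∈ powersetCard K (univ : Finset P),
    ∏ l, good (univ.filter (fun x => pt l x ∈ S)) (c l)
  let W2 : (L → X → Fin (r + 2)) → ℝ := fun c =>
    ∑ l, J * 2 ^ cnt (fun l' => if l' = l then (univ : Finset X) else ∅) c +
      ∑ p, 2 ^ cnt (fun l => univ.filter (fun x => pt l x = p)) c
  have e1 : ∑ c, W1 c ≤ Ω * (1 / 2) := by
    rw [sum_comm]
    have : ∀ S ∈ powersetCard K (univ : Finset P),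
        ∑ c : L → X → Fin (r + 2), ∏ l, good (univ.filter (fun x => pt l x ∈ S)) (c l) ≤
          Ω * Real.exp (-(t ^ 2 * K / (4 * (r + 2)))) := fun S hS => by
      refine (sum_good _ t ht).trans (le_of_eq ?_)
      have a1 : (∑ l, ((univ.filter (fun x => pt l x ∈ S)).card : ℝ)) = K * ((r + 2) * t) := by
        rw [← (mem_powersetCard.1 hS).2]; exact_mod_cast hsum S
      have a2 : (Fintype.card L : ℝ) = (r + 2) * K / 2 := by
        rw [eq_div_iff two_ne_zero, mul_comm]; exact_mod_cast hK.symm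
      rw [a1, a2]
      congr 2
      field_simp
      ring
    refine (sum_le_card_nsmul _ _ _ this).trans ?_
    rw [card_powersetCard, card_univ, nsmul_eq_mul, mul_left_comm]
    exact mul_le_mul_of_nonneg_left h1 Ω0.le
  have hL : (Fintype.card L : ℝ) * J = N * J := by
    have := hsum univ
    simp only [mem_univ, filter_true, sum_const, card_univ, smul_eq_mul, hX] at this
    rw [hN, hJ']
    exact_mod_cast this
  have J0 : 0 ≤ J := by positivity
  have e2 : ∑ c, W2 c ≤ N * (J + 1) * (Ω * 8 ^ t) := by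
    rw [sum_add_distrib, sum_comm, sum_comm (s := (univ : Finset (L → X → Fin (r + 2))))]
    have a1 : ∀ l ∈ (univ : Finset L), ∑ c : L → X → Fin (r + 2),
        J * 2 ^ cnt (fun l' => if l' = l then (univ : Finset X) else ∅) c ≤ J * (Ω * 8 ^ t) := by
      intro l _
      rw [← mul_sum]
      refine mul_le_mul_of_nonneg_left (sum_cnt _ t ?_) J0
      simp [apply_ite card, hX]
    have a2 := sum_le_card_nsmul _ _ _ a1
    have a3 := sum_le_card_nsmul (univ : Finset P) _ _ fun p _ => sum_cnt _ t (hJ p)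
    rw [card_univ, nsmul_eq_mul] at a2 a3
    rw [← mul_assoc, hL] at a2
    linarith
  have T0 : (0 : ℝ) < 2 ^ T := by positivity
  have e3 : ∑ c, (W1 c + 2 / (N * 2 ^ T) * W2 c) < ∑ _c : L → X → Fin (r + 2), (1 : ℝ) := by
    have a1 : ∑ _c : L → X → Fin (r + 2), (1 : ℝ) = Ω := by simp [hΩ]
    have a2 : 4 * (J + 1) * 8 ^ t < 2 ^ T := by rw [hJ']; exact_mod_cast h2
    have a3 : 2 / (N * 2 ^ T) * (N * (J + 1) * (Ω * 8 ^ t)) < Ω * (1 / 2) := by
      rw [div_mul_eq_mul_div, div_lt_iff₀ (by positivity)]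
      nlinarith [mul_lt_mul_of_pos_left a2 (mul_pos N0 Ω0)]
    have a4 := mul_le_mul_of_nonneg_left e2 (show 0 ≤ 2 / (N * 2 ^ T) by positivity)
    rw [sum_add_distrib, ← mul_sum, a1]
    linarith
  obtain ⟨c, -, hc⟩ := exists_lt_of_sum_lt e3
  have w1 : 0 ≤ W1 c := sum_nonneg fun S _ => prod_nonneg fun l _ => good_nonneg _ _
  have w2 : 0 ≤ W2 c :=
    add_nonneg (sum_nonneg fun _ _ => by positivity) (sum_nonneg fun _ _ => by positivity)
  refine ⟨c, fun S hS => ?_, ?_⟩
  · by_contra hno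
    have a1 : ∏ l, good (univ.filter (fun x => pt l x ∈ S)) (c l) = 1 :=
      prod_eq_one fun l _ => if_neg fun ⟨x, hx, y, hy, a, b⟩ =>
        hno ⟨l, x, y, (mem_filter.1 hx).2, (mem_filter.1 hy).2, a, b⟩
    have a2 := single_le_sum (s := powersetCard K (univ : Finset P))
      (f := fun S => ∏ l, good (univ.filter (fun x => pt l x ∈ S)) (c l))
      (fun S _ => prod_nonneg fun l _ => good_nonneg _ _)
      (mem_powersetCard.2 ⟨subset_univ _, hS⟩)
    have a3 : 0 ≤ 2 / (N * 2 ^ T) * W2 c := by positivity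
    rw [a1] at a2
    exact absurd hc (not_lt.2 (a2.trans (le_add_of_nonneg_right a3)))
  · set D := univ.filter (fun p => (∃ l x, pt l x = p ∧
        T < (univ.filter (fun x => c l x = 0 ∨ c l x = 1)).card) ∨
        T < cnt (fun l => univ.filter (fun x => pt l x = p)) c) with hD
    have a1 : ∀ p ∈ D, (2 : ℝ) ^ T ≤ ∑ l, ((univ.filter (fun x => pt l x = p)).card : ℝ) *
        2 ^ cnt (fun l' => if l' = l then (univ : Finset X) else ∅) c +
        2 ^ cnt (fun l => univ.filter (fun x => pt l x = p)) c := by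
      intro p hp
      rcases (mem_filter.1 hp).2 with ⟨l, x, hx, hl⟩ | hl
      · refine le_add_of_le_of_nonneg (le_trans ?_ (single_le_sum
          (fun l _ => by positivity) (mem_univ l))) (by positivity)
        have b1 : (1 : ℝ) ≤ (univ.filter (fun x => pt l x = p)).card := by
          exact_mod_cast card_pos.2 ⟨x, mem_filter.2 ⟨mem_univ _, hx⟩⟩
        have b2 : T ≤ cnt (fun l' => if l' = l then (univ : Finset X) else ∅) c := by
          refine hl.le.trans (le_trans (le_of_eq ?_) (single_le_sum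
            (fun l _ => Nat.zero_le _) (mem_univ l)))
          simp
        exact (pow_le_pow_right₀ one_le_two b2).trans
          (le_mul_of_one_le_left (by positivity) b1)
      · exact le_add_of_nonneg_of_le (sum_nonneg fun _ _ => by positivity)
          (pow_le_pow_right₀ one_le_two hl.le)
    have a2 := (card_nsmul_le_sum _ _ _ a1).trans (sum_le_sum_of_subset_of_nonneg
      (subset_univ D) fun _ _ _ => add_nonneg (sum_nonneg fun _ _ => by positivity)
        (by positivity))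
    have a3 : ∀ l, ∑ p, ((univ.filter (fun x => pt l x = p)).card : ℝ) = J := fun l => by
      have := card_eq_sum_card_fiberwise (s := univ) (f := pt l) (t := univ)
        (fun x _ => mem_univ _)
      rw [card_univ, hX] at this
      rw [hJ']
      exact_mod_cast this.symm
    rw [nsmul_eq_mul, sum_add_distrib, sum_comm] at a2
    simp only [← sum_mul, a3] at a2
    have a4 : 2 / (N * 2 ^ T) * W2 c < 1 := by linarith
    rw [div_mul_eq_mul_div, div_lt_one (by positivity)] at a4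
    have a5 : 2 * (D.card : ℝ) < N := by
      have : (D.card : ℝ) * 2 ^ T ≤ W2 c := a2
      nlinarith
    rw [hN] at a5
    exact_mod_cast a5.le

end

end

section
variable {P L : Type} (blk : L → Finset P) (col : L → P → Bool) (T : ℕ)

/-- Adjacency: oppositely coloured points of a block, a point and a filler of a block through it,
two fillers of the same block. -/
def adjF : P ⊕ (L × Fin T) → P ⊕ (L × Fin T) → Prop
  | .inl p, .inl q => ∃ l, p ∈ blk l ∧ q ∈ blk l ∧ col l p ≠ col l q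
  | .inl p, .inr x => p ∈ blk x.1
  | .inr x, .inl p => p ∈ blk x.1
  | .inr x, .inr y => x.1 = y.1 ∧ x.2 ≠ y.2

/-- The block graph with filler cliques. -/
def grF : SimpleGraph (P ⊕ (L × Fin T)) where
  Adj := adjF blk col T
  symm := ⟨by
    rintro (p | x) (q | y) h
    · obtain ⟨l, h1, h2, h3⟩ := h
      exact ⟨l, h2, h1, h3.symm⟩
    · exact h
    · exact h
    · exact ⟨h.1.symm, h.2.symm⟩⟩
  loopless := ⟨by
    rintro (p | x) h
    · obtain ⟨l, -, -, h2⟩ := h
      exact h2 rfl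
    · exact h.2 rfl⟩

/-- Blocks form no triangle. -/
def NoTri : Prop := ∀ i j k p q z, p ∈ blk i → q ∈ blk i → q ∈ blk j → z ∈ blk j →
  p ∈ blk k → z ∈ blk k → p ≠ q → q ≠ z → p ≠ z → i = j ∧ j = k

variable {blk col T}

theorem no_tri (htri : NoTri blk) {p q z : P} (h1 : (grF blk col T).Adj (.inl p) (.inl q))
    (h2 : (grF blk col T).Adj (.inl q) (.inl z)) (h3 : (grF blk col T).Adj (.inl p) (.inl z)) :
    False := by
  have n1 : p ≠ q := fun h => h1.ne (by rw [h])
  have n2 : q ≠ z := fun h => h2.ne (by rw [h])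
  have n3 : p ≠ z := fun h => h3.ne (by rw [h])
  obtain ⟨i, a1, a2, b1⟩ := h1
  obtain ⟨j, a3, a4, b2⟩ := h2
  obtain ⟨k, a5, a6, b3⟩ := h3
  obtain ⟨rfl, rfl⟩ := htri i j k p q z a1 a2 a3 a4 a5 a6 n1 n2 n3
  revert b1 b2 b3
  cases col i p <;> cases col i q <;> cases col i z <;> simp

theorem left_le (htri : NoTri blk) (X : Finset (P ⊕ (L × Fin T)))
    (hX : (grF blk col T).IsClique (X : Set _)) : X.toLeft.card ≤ 2 := by
  classical
  by_contra h
  push Not at h
  obtain ⟨p, q, z, hp, hq, hz, n1, n3, n2⟩ := Finset.two_lt_card_iff.1 h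
  rw [mem_toLeft] at hp hq hz
  exact no_tri htri (hX hp hq (by simpa using n1)) (hX hq hz (by simpa using n2))
    (hX hp hz (by simpa using n3))

theorem clique_le (htri : NoTri blk) (X : Finset (P ⊕ (L × Fin T)))
    (hX : (grF blk col T).IsClique (X : Set _)) : X.card ≤ T + 2 := by
  have h1 := left_le htri X hX
  have h2 := card_le_card_of_injOn (s := X.toRight) (t := (univ : Finset (Fin T)))
    (fun x => x.2) (fun _ _ => mem_coe.2 (mem_univ _)) (by
      intro x hx y hy hxy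
      by_contra hne
      rw [mem_coe, mem_toRight] at hx hy
      exact (hX hx hy (by simpa using hne)).2 hxy)
  have h3 := card_toLeft_add_card_toRight (u := X)
  rw [card_univ, Fintype.card_fin] at h2
  omega

variable [Fintype P] [DecidableEq P] [Fintype L] [DecidableEq L]
  [DecidableRel (grF blk col T).Adj]

theorem wt_le (htri : NoTri blk) (v : P ⊕ (L × Fin T)) :
    wt (grF blk col T) v ≤ (((grF blk col T).degree v : ℝ) + T + 3) / 2 := by
  have : sSup {n : ℕ | ∃ s : Finset (P ⊕ (L × Fin T)), (grF blk col T).IsNClique n s ∧ v ∈ s} ≤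
      T + 2 := csSup_le' fun n ⟨s, hs, _⟩ => hs.card_eq ▸ clique_le htri s hs.isClique
  have h2 : ((sSup {n : ℕ | ∃ s : Finset (P ⊕ (L × Fin T)),
      (grF blk col T).IsNClique n s ∧ v ∈ s} : ℕ) : ℝ) ≤ T + 2 := by exact_mod_cast this
  unfold wt
  linarith

/-- The points and fillers of a block. -/
def star (blk : L → Finset P) (T : ℕ) (l : L) : Finset (P ⊕ (L × Fin T)) :=
  (blk l).disjSum (univ.image (fun k : Fin T => (l, k)))

omit [Fintype P] [DecidableEq P] [Fintype L] in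
theorem card_star (hb : ∀ l, (blk l).card ≤ T) (l : L) : (star blk T l).card ≤ 2 * T := by
  rw [star, card_disjSum]
  have := card_image_le (s := (univ : Finset (Fin T))) (f := fun k : Fin T => (l, k))
  rw [card_univ, Fintype.card_fin] at this
  have := hb l
  omega

theorem deg_right (hb : ∀ l, (blk l).card ≤ T) (x : L × Fin T) :
    (grF blk col T).degree (.inr x) ≤ 2 * T := by
  refine le_trans (card_le_card ?_) (card_star hb x.1)
  rintro (p | y) h <;> rw [SimpleGraph.mem_neighborFinset] at h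
  · exact inl_mem_disjSum.2 h
  · exact inr_mem_disjSum.2 (mem_image.2 ⟨y.2, mem_univ _, Prod.ext h.1 rfl⟩)

theorem deg_left (hb : ∀ l, (blk l).card ≤ T) (p : P) :
    (grF blk col T).degree (.inl p) ≤ (univ.filter (fun l => p ∈ blk l)).card * (2 * T) := by
  refine le_trans (card_le_card ?_) (card_biUnion_le_card_mul _ (star blk T) _
    fun l _ => card_star hb l)
  rintro (q | y) h <;> rw [SimpleGraph.mem_neighborFinset] at h
  · obtain ⟨l, h1, h2, -⟩ := h
    exact mem_biUnion.2 ⟨l, by simpa using h1, inl_mem_disjSum.2 h2⟩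
  · exact mem_biUnion.2 ⟨y.1, mem_filter.2 ⟨mem_univ _, h⟩,
      inr_mem_disjSum.2 (mem_image.2 ⟨y.2, mem_univ _, rfl⟩)⟩

theorem gammaLe_grF (htri : NoTri blk) (hT : 1 ≤ T) (hb : ∀ l, (blk l).card ≤ T)
    (hd : ∀ p, (univ.filter (fun l => p ∈ blk l)).card ≤ T) :
    GammaLe (grF blk col T) (4 * T + 6) := by
  intro X hX hmax
  have T1 : (1 : ℝ) ≤ T := by exact_mod_cast hT
  refine div_le_of_le_mul₀ (by positivity) (by positivity) ?_
  by_cases hl : ∃ l, (∀ p, Sum.inl p ∈ X → p ∈ blk l) ∧ ∀ y : L × Fin T, Sum.inr y ∈ X → y.1 = l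
  · obtain ⟨l, h1, h2⟩ := hl
    have hY : (grF blk col T).IsClique
        ((X.toLeft.disjSum (univ.image (fun k : Fin T => (l, k))) : Finset _) : Set _) := by
      rintro (p | x) ha (q | y) hb' hne <;> rw [mem_coe] at ha hb'
      · exact hX (mem_toLeft.1 (inl_mem_disjSum.1 ha)) (mem_toLeft.1 (inl_mem_disjSum.1 hb')) hne
      · obtain ⟨k, -, rfl⟩ := mem_image.1 (inr_mem_disjSum.1 hb')
        exact h1 p (mem_toLeft.1 (inl_mem_disjSum.1 ha))
      · obtain ⟨k, -, rfl⟩ := mem_image.1 (inr_mem_disjSum.1 ha)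
        exact h1 q (mem_toLeft.1 (inl_mem_disjSum.1 hb'))
      · obtain ⟨k, -, rfl⟩ := mem_image.1 (inr_mem_disjSum.1 ha)
        obtain ⟨k', -, rfl⟩ := mem_image.1 (inr_mem_disjSum.1 hb')
        exact ⟨rfl, fun h => hne (by rw [show k = k' from h])⟩
    have hE := hmax _ hY (by
      rintro (p | y) h
      · exact inl_mem_disjSum.2 (mem_toLeft.2 h)
      · exact inr_mem_disjSum.2 (mem_image.2 ⟨y.2, mem_univ _, Prod.ext (h2 y h).symm rfl⟩))
    have c1 : (univ.image (fun k : Fin T => (l, k))).card = T := by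
      rw [card_image_of_injective _ (fun a b h => (Prod.ext_iff.1 h).2)]; simp
    have c2 : (X.toLeft.card : ℝ) ≤ 2 := by exact_mod_cast left_le htri X hX
    have s1 : ∑ p ∈ X.toLeft, wt (grF blk col T) (.inl p) ≤
        X.toLeft.card • ((T * (2 * T) + T + 3 : ℝ) / 2) :=
      sum_le_card_nsmul _ _ _ fun p _ => by
        have a1 := (deg_left (col := col) hb p).trans (Nat.mul_le_mul_right _ (hd p))
        have a2 : ((grF blk col T).degree (.inl p) : ℝ) ≤ T * (2 * T) := by exact_mod_cast a1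
        linarith [wt_le (col := col) (T := T) htri (.inl p)]
    have s2 : ∑ y ∈ univ.image (fun k : Fin T => (l, k)), wt (grF blk col T) (.inr y) ≤
        (univ.image (fun k : Fin T => (l, k))).card • ((2 * T + T + 3 : ℝ) / 2) :=
      sum_le_card_nsmul _ _ _ fun y _ => by
        have a2 : ((grF blk col T).degree (.inr y) : ℝ) ≤ 2 * T := by
          exact_mod_cast deg_right (col := col) hb y
        linarith [wt_le (col := col) (T := T) htri (.inr y)]
    rw [nsmul_eq_mul] at s1 s2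
    rw [c1] at s2
    have s3 := mul_le_mul_of_nonneg_right c2
      (show 0 ≤ (T * (2 * T) + T + 3 : ℝ) / 2 by positivity)
    have c3 : (T : ℝ) ≤ X.card := by
      have : T ≤ X.card := by rw [← hE, card_disjSum, c1]; omega
      exact_mod_cast this
    have s4 : ∑ v ∈ X, wt (grF blk col T) v = ∑ p ∈ X.toLeft, wt (grF blk col T) (.inl p) +
        ∑ y ∈ univ.image (fun k : Fin T => (l, k)), wt (grF blk col T) (.inr y) := by
      conv_lhs => rw [← hE]
      rw [sum_disjSum]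
    nlinarith
  · rw [mul_comm, ← nsmul_eq_mul]
    refine sum_le_card_nsmul _ _ _ ?_
    have hr : ∀ x, Sum.inr x ∉ X := fun x hx => hl ⟨x.1, fun p hp => hX hp hx (by simp),
      fun y hy => by
        by_cases hxy : y = x
        · rw [hxy]
        · exact (hX hy hx (by simpa using hxy)).1⟩
    rintro (p | x) hp
    · have h1 : ∀ q, Sum.inl q ∈ X → q = p := fun q hq => by
        by_contra hne
        have hadj := hX hq hp (by simpa using hne)
        obtain ⟨l, a1, a2, -⟩ := id hadj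
        refine hl ⟨l, fun z hz => ?_, fun y hy => absurd hy (hr y)⟩
        by_cases hzp : z = p
        · rw [hzp]; exact a2
        by_cases hzq : z = q
        · rw [hzq]; exact a1
        exact (no_tri htri hadj (hX hp hz (by simpa using Ne.symm hzp))
          (hX hq hz (by simpa using Ne.symm hzq))).elim
      have h2 : univ.filter (fun l => p ∈ blk l) = ∅ := filter_eq_empty_iff.2 fun l _ h =>
        hl ⟨l, fun q hq => h1 q hq ▸ h, fun y hy => absurd hy (hr y)⟩
      have h3 := deg_left (col := col) hb p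
      rw [h2, card_empty, zero_mul, Nat.le_zero] at h3
      have h4 := wt_le (col := col) (T := T) htri (.inl p)
      rw [h3] at h4
      push_cast at h4
      linarith
    · exact absurd hp (hr x)

omit [DecidableRel (grF blk col T).Adj] in
theorem frac_ge (U : Finset P) (K : ℕ) (hU : ∀ S ⊆ U, S.card = K →
    ∃ l, ∃ p ∈ S, ∃ q ∈ S, p ∈ blk l ∧ q ∈ blk l ∧ col l p ≠ col l q)
    (x : Finset (P ⊕ (L × Fin T)) → ℝ) (hx : IsFracCol (grF blk col T) x) :
    (U.card : ℝ) ≤ K * ∑ s, x s := by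
  obtain ⟨x0, x1, x2⟩ := hx
  have h1 := card_nsmul_le_sum U _ _ fun p _ => x2 (.inl p)
  simp only [nsmul_eq_mul, mul_one, sum_filter] at h1
  rw [sum_comm] at h1
  rw [mul_sum]
  refine h1.trans (sum_le_sum fun s _ => ?_)
  rw [← sum_filter, sum_const, nsmul_eq_mul]
  by_cases hs : (grF blk col T).IsIndepSet (s : Set _)
  · refine mul_le_mul_of_nonneg_right ?_ (x0 s)
    by_contra hlt
    obtain ⟨S, hS, hc⟩ := exists_subset_card_eq
      (show K ≤ (U.filter (fun p => Sum.inl p ∈ s)).card by exact_mod_cast (not_le.1 hlt).le)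
    obtain ⟨l, p, hp, q, hq, h2⟩ := hU S (hS.trans (filter_subset _ _)) hc
    have hadj : (grF blk col T).Adj (.inl p) (.inl q) := ⟨l, h2⟩
    exact hs (mem_filter.1 (hS hp)).2 (mem_filter.1 (hS hq)).2 hadj.ne hadj
  · simp [x1 s hs]

end

section
/-- From a labelling to blocks. -/
theorem exists_graph {X L P : Type} [Fintype X] [DecidableEq X] [Fintype L] [DecidableEq L]
    [Fintype P] [DecidableEq P] {r : ℕ} (pt : L → X → P) (hinj : ∀ l, Function.Injective (pt l))
    (htri : ∀ (i j k : L) (x y y' z x' z' : X), pt i y = pt j y' → pt j z = pt k z' →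
      pt i x = pt k x' → pt i x ≠ pt i y → pt i y ≠ pt j z → pt i x ≠ pt j z → i = j ∧ j = k)
    (K T : ℕ) (c : L → X → Fin (r + 2))
    (h1 : ∀ S : Finset P, S.card = K → ∃ l x y, pt l x ∈ S ∧ pt l y ∈ S ∧ c l x = 0 ∧ c l y = 1)
    (h2 : 2 * (univ.filter (fun p => (∃ l x, pt l x = p ∧
        T < (univ.filter (fun x => c l x = 0 ∨ c l x = 1)).card) ∨
        T < cnt (fun l => univ.filter (fun x => pt l x = p)) c)).card ≤ Fintype.card P) :
    ∃ (blk : L → Finset P) (col : L → P → Bool) (U : Finset P), NoTri blk ∧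
      (∀ l, (blk l).card ≤ T) ∧ (∀ p, (univ.filter (fun l => p ∈ blk l)).card ≤ T) ∧
      Fintype.card P ≤ 2 * U.card ∧ ∀ S ⊆ U, S.card = K →
        ∃ l, ∃ p ∈ S, ∃ q ∈ S, p ∈ blk l ∧ q ∈ blk l ∧ col l p ≠ col l q := by
  set D := univ.filter (fun p => (∃ l x, pt l x = p ∧
    T < (univ.filter (fun x => c l x = 0 ∨ c l x = 1)).card) ∨
    T < cnt (fun l => univ.filter (fun x => pt l x = p)) c) with hD
  let blk : L → Finset P := fun l =>
    ((univ.filter (fun x => c l x = 0 ∨ c l x = 1)).image (pt l)).filter (fun p => p ∉ D)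
  have mb : ∀ l p, p ∈ blk l ↔ (∃ x, (c l x = 0 ∨ c l x = 1) ∧ pt l x = p) ∧ p ∉ D :=
    fun l p => by simp only [blk, mem_filter, mem_image, mem_univ, true_and]
  have mD : ∀ p, p ∉ D → (∀ l x, pt l x = p →
      (univ.filter (fun x => c l x = 0 ∨ c l x = 1)).card ≤ T) ∧
      cnt (fun l => univ.filter (fun x => pt l x = p)) c ≤ T := fun p hp =>
    ⟨fun l x h => not_lt.1 fun h' => hp (mem_filter.2 ⟨mem_univ _, Or.inl ⟨l, x, h, h'⟩⟩),
      not_lt.1 fun h' => hp (mem_filter.2 ⟨mem_univ _, Or.inr h'⟩)⟩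
  refine ⟨blk, fun l p => decide (∃ x, pt l x = p ∧ c l x = 0), Dᶜ, ?_, fun l => ?_, fun p => ?_,
    ?_, fun S hS hK => ?_⟩
  · intro i j k p q z a1 a2 a3 a4 a5 a6 n1 n2 n3
    obtain ⟨⟨x, -, rfl⟩, -⟩ := (mb _ _).1 a1
    obtain ⟨⟨y, -, rfl⟩, -⟩ := (mb _ _).1 a2
    obtain ⟨⟨y', -, e1⟩, -⟩ := (mb _ _).1 a3
    obtain ⟨⟨z, -, rfl⟩, -⟩ := (mb _ _).1 a4
    obtain ⟨⟨x', -, e2⟩, -⟩ := (mb _ _).1 a5
    obtain ⟨⟨z', -, e3⟩, -⟩ := (mb _ _).1 a6
    exact htri i j k x y y' z x' z' e1.symm e3.symm e2.symm n1 n2 n3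
  · rcases (blk l).eq_empty_or_nonempty with h | ⟨p, hp⟩
    · simp [h]
    · obtain ⟨⟨x, -, hx⟩, hp⟩ := (mb _ _).1 hp
      exact (card_filter_le _ _).trans (card_image_le.trans ((mD p hp).1 l x hx))
  · by_cases hp : p ∈ D
    · rw [filter_eq_empty_iff.2 fun l _ h => ((mb _ _).1 h).2 hp]; simp
    · refine le_trans ?_ (mD p hp).2
      rw [card_filter, cnt]
      refine sum_le_sum fun l _ => ?_
      split_ifs with h
      · obtain ⟨⟨x, h3, h4⟩, -⟩ := (mb _ _).1 h
        exact card_pos.2 ⟨x, mem_filter.2 ⟨mem_filter.2 ⟨mem_univ _, h4⟩, h3⟩⟩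
      · exact Nat.zero_le _
  · have := card_add_card_compl D
    omega
  · obtain ⟨l, x, y, a1, a2, a3, a4⟩ := h1 S hK
    refine ⟨l, _, a1, _, a2, (mb _ _).2 ⟨⟨x, Or.inl a3, rfl⟩, mem_compl.1 (hS a1)⟩,
      (mb _ _).2 ⟨⟨y, Or.inr a4, rfl⟩, mem_compl.1 (hS a2)⟩, ?_⟩
    intro h0
    obtain ⟨y', e, h⟩ := (decide_eq_decide.1 h0).1 ⟨x, rfl, a3⟩
    rw [hinj l e, a4] at h
    simp at h

/-- The construction with integer parameters. -/
theorem lower_aux (t m : ℕ) (ht : 2 ≤ t) (htm : t ≤ m) (hm : m ≤ t ^ 2)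
    (hexp : (6 * m : ℝ) ≤ Real.exp (t ^ 2 / (8 * m))) :
    ∃ (V : Type) (_ : Fintype V) (_ : DecidableEq V) (_ : Nonempty V) (G : SimpleGraph V)
      (_ : DecidableRel G.Adj), GammaLe G (42 * t) ∧
        ∀ x, IsFracCol G x → (m : ℝ) / 2 ≤ ∑ s, x s := by
  classical
  obtain ⟨r, hr⟩ : ∃ r, 2 * m = r + 2 := ⟨2 * m - 2, by omega⟩
  obtain ⟨n, hn⟩ : ∃ n, (r + 2) * t = n + 1 := ⟨(r + 2) * t - 1, by
    have : 0 < (r + 2) * t := by positivity
    omega⟩
  let pt : Fin (n + 1) × (Fin n → Fin (n + 1)) → Fin (n + 1) → (Fin (n + 1) → Fin (n + 1)) :=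
    fun l x => Fin.insertNth l.1 x l.2
  have hpt : ∀ l x p, pt l x = p ↔ x = p l.1 ∧ l.2 = Fin.removeNth l.1 p := fun l x p =>
    Fin.insertNth_eq_iff
  set K := 2 * t * (n + 1) ^ n with hK
  have K0 : 0 < K := by positivity
  have hN : Fintype.card (Fin (n + 1) → Fin (n + 1)) = m * K := by
    rw [Fintype.card_fun, Fintype.card_fin, hK, pow_succ]
    have : n + 1 = 2 * m * t := by rw [hr, hn]
    calc (n + 1) ^ n * (n + 1) = (n + 1) ^ n * (2 * m * t) := by rw [← this]
      _ = _ := by ring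
  have m0 : (0 : ℝ) < m := by exact_mod_cast (by omega : 0 < m)
  obtain ⟨c, c1, c2⟩ := exists_label (r := r) pt t K (by omega) (by simp [hn]) (fun p => by
      simp only [hpt, Fintype.sum_prod_type, card_filter, ite_and]
      simp [hn])
    (by simp only [Fintype.card_prod, Fintype.card_fun, Fintype.card_fin, hK]
        rw [← hn]; ring_nf) (by positivity) (by
      have a1 : (((m * K).choose K : ℕ) : ℝ) ≤ 3 ^ K * m ^ K := by
        exact_mod_cast choose_le m K K (by omega) (Nat.le_mul_of_pos_left _ (by omega))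
      have a2 : (r : ℝ) + 2 = 2 * m := by exact_mod_cast hr.symm
      have a3 : Real.exp (-(t ^ 2 * K / (4 * (2 * m)))) = Real.exp (-(t ^ 2 / (8 * m))) ^ K := by
        rw [← Real.exp_nat_mul]; congr 1; field_simp; ring
      have a4 : 3 * m * Real.exp (-(t ^ 2 / (8 * m))) ≤ 1 / 2 := by
        rw [Real.exp_neg, ← div_eq_mul_inv, div_le_iff₀ (Real.exp_pos _)]; linarith
      rw [hN, a2, a3]
      refine (mul_le_mul_of_nonneg_right a1 (by positivity)).trans ?_
      rw [← mul_pow, ← mul_pow]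
      exact (pow_le_pow_left₀ (by positivity) a4 K).trans
        (pow_le_of_le_one (by norm_num) (by norm_num) K0.ne'))
    (9 * t) (by
      have a1 : t ^ 3 < 8 ^ t := by
        rw [show 8 = 2 ^ 3 from rfl, ← pow_mul, mul_comm, pow_mul]
        exact Nat.pow_lt_pow_left Nat.lt_two_pow_self (by norm_num)
      have a2 : 8 ^ 2 ≤ 8 ^ t := Nat.pow_le_pow_right (by norm_num) ht
      have a3 : 2 ^ (9 * t) = 8 ^ t * 8 ^ t * 8 ^ t := by
        rw [← mul_pow, ← mul_pow, pow_mul]; norm_num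
      have a4 : (r + 2) * t ≤ 2 * t ^ 3 := by rw [← hr]; nlinarith
      rw [a3]
      exact Nat.mul_lt_mul_of_pos_right (by nlinarith) (by positivity))
  obtain ⟨blk, col, U, b1, b2, b3, b4, b5⟩ := exists_graph pt
    (fun l x y h => by simpa [pt] using congrFun h l.1)
    (fun i j k x y y' z x' z' e1 e2 e3 n1 n2 n3 => by
      have q : ∀ l x, Fin.removeNth l.1 (pt l x) = l.2 := fun l x => ((hpt l x _).1 rfl).2.symm
      obtain ⟨f1, f2⟩ := cube_tri i.1 j.1 k.1 (pt i x) (pt i y) (pt j z) (by rw [q, q])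
        (by rw [e1, q, q]) (by rw [e3, e2, q, q]) n1 n2 n3
      refine ⟨Prod.ext f1 ?_, Prod.ext f2 ?_⟩
      · rw [← q i y, e1, f1, q]
      · rw [← q j z, e2, f2, q]) K (9 * t) c c1 c2
  refine ⟨_, inferInstance, inferInstance, inferInstance, grF blk col (9 * t), inferInstance,
    fun X h1 h2 => (gammaLe_grF b1 (by omega) b2 b3 X h1 h2).trans ?_, fun x hx => ?_⟩
  · have : (2 : ℝ) ≤ t := by exact_mod_cast ht
    push_cast
    linarith
  · have a1 := frac_ge U K b5 x hx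
    have a2 : (m : ℝ) * K ≤ 2 * U.card := by rw [hN] at b4; exact_mod_cast b4
    have a3 : (0 : ℝ) < K := by exact_mod_cast K0
    nlinarith

/-- Graphs with `γ_∞ ≤ g` and `χ_f ≥ g² / (10⁶ log g)`. -/
theorem lower : ∃ g0 : ℝ, ∀ g ≥ g0,
    ∃ (V : Type) (_ : Fintype V) (_ : DecidableEq V) (_ : Nonempty V) (G : SimpleGraph V)
      (_ : DecidableRel G.Adj), GammaLe G g ∧
        ∀ x, IsFracCol G x → 1 / 10 ^ 6 * (g ^ 2 / Real.log g) ≤ ∑ s, x s := by
  have h1 := (Real.isLittleO_log_id_atTop.bound (show (0 : ℝ) < 1 / 24 by norm_num))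
  obtain ⟨s0, hs0⟩ := Filter.eventually_atTop.1 h1
  refine ⟨42 * (max s0 6 + 1), fun g hg => ?_⟩
  have m6 : 6 ≤ max s0 6 := le_max_right _ _
  set t := ⌊g / 42⌋₊ with ht
  have t1 : (t : ℝ) ≤ g / 42 := Nat.floor_le (by linarith)
  have t2 : g / 42 < t + 1 := Nat.lt_floor_add_one _
  have t3 : max s0 6 ≤ t := by linarith
  have t6 : (6 : ℝ) ≤ t := m6.trans t3
  have l1 : 1 ≤ Real.log t := by
    rw [Real.le_log_iff_exp_le (by linarith)]
    linarith [Real.exp_one_lt_three]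
  have l2 : 24 * Real.log t ≤ t := by
    have := hs0 t ((le_max_left _ _).trans t3)
    simp only [id, Real.norm_eq_abs, Nat.abs_cast] at this
    linarith [le_abs_self (Real.log t)]
  set y : ℝ := t ^ 2 / (24 * Real.log t) with hy
  have y1 : (t : ℝ) ≤ y := by rw [hy, le_div_iff₀ (by positivity)]; nlinarith
  have y2 : y ≤ t ^ 2 := div_le_self (by positivity) (by linarith)
  have y3 : (⌊y⌋₊ : ℝ) ≤ y := Nat.floor_le (by linarith)
  have y4 : y < ⌊y⌋₊ + 1 := Nat.lt_floor_add_one _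
  have y5 : t ≤ ⌊y⌋₊ := Nat.le_floor y1
  have y6 : (t : ℝ) ≤ ⌊y⌋₊ := by exact_mod_cast y5
  obtain ⟨V, i1, i2, i3, G, i4, h2, h3⟩ := lower_aux t ⌊y⌋₊
    (by exact_mod_cast (by linarith : (2 : ℝ) ≤ t)) y5 (by exact_mod_cast y3.trans y2) (by
      have a1 : 3 * Real.log t ≤ t ^ 2 / (8 * ⌊y⌋₊) := by
        rw [le_div_iff₀ (by linarith)]
        rw [hy, le_div_iff₀ (by positivity)] at y3
        linarith
      refine le_trans ?_ (Real.exp_le_exp.2 a1)
      rw [show (3 : ℝ) = (3 : ℕ) by norm_num, Real.exp_nat_mul, Real.exp_log (by linarith)]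
      nlinarith)
  refine ⟨V, i1, i2, i3, G, i4, fun X a b => (h2 X a b).trans (by linarith),
    fun x hx => le_trans ?_ (h3 x hx)⟩
  have l3 : Real.log t ≤ Real.log g := Real.log_le_log (by linarith) (by linarith)
  have a1 : g ^ 2 / Real.log g ≤ (84 * t) ^ 2 / Real.log t :=
    div_le_div₀ (by positivity) (pow_le_pow_left₀ (by linarith) (by linarith) 2) (by linarith) l3
  have a2 : ((84 : ℝ) * t) ^ 2 / Real.log t = 169344 * y := by rw [hy]; field_simp; ring
  linarith

end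

/-- The order of the extremal function. -/
theorem maxChi_theta : maxChi =Θ[Filter.atTop] fun g : ℝ => g ^ 2 / Real.log g := by
  obtain ⟨g1, h1⟩ := upper
  obtain ⟨g2, h2⟩ := lower
  have key : ∀ᶠ g : ℝ in Filter.atTop, 0 ≤ g ^ 2 / Real.log g ∧
      1 / 10 ^ 6 * (g ^ 2 / Real.log g) ≤ maxChi g ∧ maxChi g ≤ 68 * (g ^ 2 / Real.log g) := by
    filter_upwards [Filter.eventually_ge_atTop g1, Filter.eventually_ge_atTop g2,
      Filter.eventually_ge_atTop 1] with g a1 a2 a3
    have p0 : 0 ≤ g ^ 2 / Real.log g := div_nonneg (sq_nonneg g) (Real.log_nonneg a3)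
    have hub : ∀ t ∈ {t : ℝ | ∃ (V : Type) (_ : Fintype V) (_ : DecidableEq V) (_ : Nonempty V)
        (G : SimpleGraph V) (_ : DecidableRel G.Adj), GammaLe G g ∧ chiF G = t},
        t ≤ 68 * (g ^ 2 / Real.log g) := by
      rintro _ ⟨V, _, _, _, G, _, hG, rfl⟩
      obtain ⟨x, x1, x2⟩ := h1 g a1 V G hG
      refine le_trans (csInf_le ⟨0, ?_⟩ ⟨x, x1, rfl⟩) x2
      rintro _ ⟨y, y1, rfl⟩
      exact sum_nonneg fun s _ => y1.1 s
    obtain ⟨V, i1, i2, i3, G, i4, hG, hx⟩ := h2 g a2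
    refine ⟨p0, le_trans ?_ (le_csSup ⟨_, hub⟩ ⟨V, i1, i2, i3, G, i4, hG, rfl⟩),
      Real.sSup_le hub (by positivity)⟩
    obtain ⟨x, x1, -⟩ := h1 g a1 V G hG
    refine le_csInf ⟨_, x, x1, rfl⟩ ?_
    rintro _ ⟨y, y1, rfl⟩
    exact hx y y1
  refine ⟨Asymptotics.IsBigO.of_bound 68 (key.mono fun g h => ?_),
    Asymptotics.IsBigO.of_bound (10 ^ 6) (key.mono fun g h => ?_)⟩ <;>
  · obtain ⟨a1, a2, a3⟩ := h
    rw [Real.norm_of_nonneg a1, Real.norm_of_nonneg (le_trans (by positivity) a2)]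
    linarith

end Pool.Agent.P.MP_8e531e_co.Q
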